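import Pool.Agent.TH311.LL2D.Inf2

/-! A lower bound of the free density of states of the plane. -/

set_option autoImplicit false
set_option linter.unusedSectionVars false

open scoped BigOperators Topology
open MeasureTheory Filter

namespace Pool.Agent.TH311.LL2D

open Pool.Agent.W788.BK
open Pool.Agent.W788.MFP.Four (T adj NN NN_pos card_T)
open Pool.Agent.W788.MFP.Dos (a a_eq)
open Pool.Agent.W788.LD.Spec (S)
open Pool.Agent.H4R2.LO (Zd)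
open Pool.Agent.TH794.LL2 Pool.Agent.TH794.FG

/-- the momenta near a given one -/
theorem count_low {L : ℕ} [NeZero L] (θ r : ℝ) (h0 : 0 ≤ θ) (h1 : θ ≤ Real.pi) (hr : 0 < r)
    (hr1 : r ≤ 1) :
    (L : ℝ) * r / (2 * Real.pi) - 1 ≤
      ((Finset.univ.filter fun j : ZMod L => |a j - 2 * Real.cos θ| ≤ 2 * r).card : ℝ) := by
  have hpi := Real.pi_gt_three
  have hL0 : (0 : ℝ) < L := by exact_mod_cast Nat.pos_of_ne_zero (NeZero.ne L)
  obtain ⟨α, hα⟩ : ∃ α, α = (L : ℝ) * θ / (2 * Real.pi) := ⟨_, rfl⟩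
  obtain ⟨β, hβ⟩ : ∃ β, β = (L : ℝ) * (θ + r) / (2 * Real.pi) := ⟨_, rfl⟩
  have hα0 : 0 ≤ α := by rw [hα]; positivity
  have hβ0 : 0 ≤ β := by rw [hβ]; positivity
  have hβL : β < L := by
    rw [hβ, div_lt_iff₀ (by positivity)]
    apply mul_lt_mul_of_pos_left _ hL0
    linarith
  have hlt : ∀ n ∈ Finset.Icc ⌈α⌉₊ ⌊β⌋₊, n < L := by
    intro n hn
    rw [Finset.mem_Icc] at hn
    have h2 : (n : ℝ) ≤ β := (Nat.le_floor_iff hβ0).1 hn.2
    exact_mod_cast lt_of_le_of_lt h2 hβL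
  have hsub : (Finset.Icc ⌈α⌉₊ ⌊β⌋₊).image (fun n : ℕ => (n : ZMod L)) ⊆
      Finset.univ.filter fun j : ZMod L => |a j - 2 * Real.cos θ| ≤ 2 * r := by
    intro j hj
    rw [Finset.mem_image] at hj
    obtain ⟨n, hn, rfl⟩ := hj
    rw [Finset.mem_filter]
    refine ⟨Finset.mem_univ _, ?_⟩
    have hnL := hlt n hn
    rw [Finset.mem_Icc] at hn
    rw [a_eq, ZMod.val_natCast_of_lt hnL]
    have h2 : (n : ℝ) ≤ β := (Nat.le_floor_iff hβ0).1 hn.2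
    have h3 : α ≤ n := (Nat.ceil_le).1 hn.1
    have h4 := Real.abs_cos_sub_cos_le (2 * Real.pi * n / L) θ
    have h5 : |2 * Real.pi * n / L - θ| ≤ r := by
      have e1 : 2 * Real.pi * n / L ≤ θ + r := by
        rw [div_le_iff₀ hL0]
        rw [hβ, le_div_iff₀ (by positivity)] at h2
        linarith
      have e2 : θ ≤ 2 * Real.pi * n / L := by
        rw [le_div_iff₀ hL0]
        rw [hα, div_le_iff₀ (by positivity)] at h3
        linarith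
      rw [abs_le]
      constructor <;> linarith
    rw [← mul_sub, abs_mul, abs_of_pos (by norm_num : (0 : ℝ) < 2)]
    linarith
  have hcard := Finset.card_le_card hsub
  rw [Finset.card_image_of_injOn, Nat.card_Icc] at hcard
  · have h2 : β < ⌊β⌋₊ + 1 := Nat.lt_floor_add_one β
    have h3 : (⌈α⌉₊ : ℝ) < α + 1 := Nat.ceil_lt_add_one hα0
    have h4 : (⌊β⌋₊ : ℝ) + 1 - ⌈α⌉₊ ≤ ((⌊β⌋₊ + 1 - ⌈α⌉₊ : ℕ) : ℝ) := by
      have : ⌊β⌋₊ + 1 ≤ (⌊β⌋₊ + 1 - ⌈α⌉₊) + ⌈α⌉₊ := by omega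
      have h5 : ((⌊β⌋₊ + 1 : ℕ) : ℝ) ≤ (((⌊β⌋₊ + 1 - ⌈α⌉₊) + ⌈α⌉₊ : ℕ) : ℝ) := by
        exact_mod_cast this
      push_cast at h5
      linarith
    have h6 : ((⌊β⌋₊ + 1 - ⌈α⌉₊ : ℕ) : ℝ) ≤
      ((Finset.univ.filter fun j : ZMod L => |a j - 2 * Real.cos θ| ≤ 2 * r).card : ℝ) := by
      exact_mod_cast hcard
    have h7 : β - α = (L : ℝ) * r / (2 * Real.pi) := by
      rw [hα, hβ]
      ring
    linarith
  · intro m hm n hn hmn
    simp only at hmn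
    have e1 := ZMod.val_natCast_of_lt (hlt m hm)
    have e2 := ZMod.val_natCast_of_lt (hlt n hn)
    rw [← e1, ← e2, hmn]

/-- a lower bound of the density of states of the torus -/
theorem gL2_low {L : ℕ} [NeZero L] (ka t : ℝ) (hka : 0 < ka) (hka1 : ka ≤ 1) (ht : 0 < t)
    (ht1 : t ≤ 1) (E : ℝ) (hE : |E| ≤ 4 - ka)
    (hL2 : 1 / (L : ℝ) ≤ t / (4 * Real.pi)) :
    (ka / (8 * Real.pi) - 1 / L) * (t / (4 * Real.pi) - 1 / L) / (2 * t) ≤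
      (gL 2 L ((E : ℂ) + ((t : ℝ) : ℂ) * Complex.I)).im := by
  have hpi := Real.pi_gt_three
  have hL0 : (0 : ℝ) < L := by exact_mod_cast Nat.pos_of_ne_zero (NeZero.ne L)
  obtain ⟨hEl, hEu⟩ := abs_le.1 hE
  rw [gL2_eq]
  have h1 : ((L : ℂ) ^ 2)⁻¹ = ((((L : ℝ) ^ 2)⁻¹ : ℝ) : ℂ) := by push_cast; rfl
  rw [h1, Complex.im_ofReal_mul, Complex.im_sum]
  simp only [Complex.im_sum]
  have h2 : ∀ x y : ZMod L, ((((a y : ℝ) : ℂ) - (((E : ℂ) + ((t : ℝ) : ℂ) * Complex.I) -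
      ((a x : ℝ) : ℂ)))⁻¹).im = t / ((a y + a x - E) ^ 2 + t ^ 2) := by
    intro x y
    rw [Complex.inv_im, Complex.normSq_apply]
    simp
    congr 1
    ring
  simp only [h2]
  obtain ⟨θ0, hθ0⟩ : ∃ θ, θ = Real.arccos (E / 4) := ⟨_, rfl⟩
  have hc0 : Real.cos θ0 = E / 4 := by
    rw [hθ0]
    apply Real.cos_arccos <;> linarith
  obtain ⟨S1, hS1⟩ : ∃ S : Finset (ZMod L), S = Finset.univ.filter fun j : ZMod L =>
    |a j - 2 * Real.cos θ0| ≤ 2 * (ka / 4) := ⟨_, rfl⟩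
  have hS1c := count_low (L := L) θ0 (ka / 4) (by rw [hθ0]; exact Real.arccos_nonneg _)
    (by rw [hθ0]; exact Real.arccos_le_pi _) (by linarith) (by linarith)
  rw [← hS1] at hS1c
  have hin : ∀ x ∈ S1, ((L : ℝ) * (t / 2) / (2 * Real.pi) - 1) * (1 / (2 * t)) ≤
      ∑ y : ZMod L, t / ((a y + a x - E) ^ 2 + t ^ 2) := by
    intro x hx
    rw [hS1, Finset.mem_filter, hc0] at hx
    obtain ⟨hx1, hx2⟩ := abs_le.1 hx.2
    obtain ⟨θ, hθ⟩ : ∃ θ, θ = Real.arccos ((E - a x) / 2) := ⟨_, rfl⟩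
    have hc : 2 * Real.cos θ = E - a x := by
      rw [hθ, Real.cos_arccos] <;> linarith
    have hcount := count_low (L := L) θ (t / 2) (by rw [hθ]; exact Real.arccos_nonneg _)
      (by rw [hθ]; exact Real.arccos_le_pi _) (by linarith) (by linarith)
    obtain ⟨S2, hS2⟩ : ∃ S : Finset (ZMod L), S = Finset.univ.filter fun j : ZMod L =>
      |a j - 2 * Real.cos θ| ≤ 2 * (t / 2) := ⟨_, rfl⟩
    rw [← hS2] at hcount
    calc ((L : ℝ) * (t / 2) / (2 * Real.pi) - 1) * (1 / (2 * t)) ≤ (S2.card : ℝ) * (1 / (2 * t)) :=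
          mul_le_mul_of_nonneg_right hcount (by positivity)
      _ = ∑ y ∈ S2, 1 / (2 * t) := by rw [Finset.sum_const, nsmul_eq_mul]
      _ ≤ ∑ y ∈ S2, t / ((a y + a x - E) ^ 2 + t ^ 2) := by
          refine Finset.sum_le_sum fun y hy => ?_
          rw [hS2, Finset.mem_filter, hc] at hy
          have h3 : |a y + a x - E| ≤ t := by
            have : a y + a x - E = a y - (E - a x) := by ring
            rw [this]
            linarith [hy.2]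
          have h4 : (a y + a x - E) ^ 2 ≤ t ^ 2 := sq_le_sq' (abs_le.1 h3).1 (abs_le.1 h3).2
          rw [div_le_div_iff₀ (by positivity) (by positivity)]
          nlinarith
      _ ≤ _ := Finset.sum_le_sum_of_subset_of_nonneg (Finset.subset_univ _)
          fun y _ _ => by positivity
  have hfin : ∑ x ∈ S1, ((L : ℝ) * (t / 2) / (2 * Real.pi) - 1) * (1 / (2 * t)) ≤
      ∑ x : ZMod L, ∑ y : ZMod L, t / ((a y + a x - E) ^ 2 + t ^ 2) := by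
    refine (Finset.sum_le_sum hin).trans ?_
    refine Finset.sum_le_sum_of_subset_of_nonneg (Finset.subset_univ _) fun x _ _ => ?_
    exact Finset.sum_nonneg fun y _ => by positivity
  rw [Finset.sum_const, nsmul_eq_mul] at hfin
  have hA : (L : ℝ) * (t / 2) / (2 * Real.pi) - 1 = L * (t / (4 * Real.pi) - 1 / L) := by
    field_simp
    ring
  have hB : (L : ℝ) * (ka / 4) / (2 * Real.pi) - 1 = L * (ka / (8 * Real.pi) - 1 / L) := by
    field_simp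
    ring
  rw [hA] at hfin
  rw [hB] at hS1c
  have hA0 : 0 ≤ t / (4 * Real.pi) - 1 / (L : ℝ) := by linarith
  calc (ka / (8 * Real.pi) - 1 / L) * (t / (4 * Real.pi) - 1 / L) / (2 * t) =
        ((L : ℝ) ^ 2)⁻¹ * ((L * (ka / (8 * Real.pi) - 1 / L)) *
          ((L * (t / (4 * Real.pi) - 1 / L)) * (1 / (2 * t)))) := by
        field_simp
    _ ≤ ((L : ℝ) ^ 2)⁻¹ * ((S1.card : ℝ) *
          ((L * (t / (4 * Real.pi) - 1 / L)) * (1 / (2 * t)))) := by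
        gcongr
    _ ≤ _ := by gcongr

/-- a lower bound of the density of states -/
theorem inf_low (ka t : ℝ) (hka : 0 < ka) (hka1 : ka ≤ 1) (ht : 0 < t)
    (ht1 : t ≤ 1) (E : ℝ) (hE : |E| ≤ 4 - ka) (ur ui : Zd 2 → ℝ)
    (h : LG 2 0 (fun _ => 0) 0 E t ur ui) : ka / 640 ≤ ui 0 := by
  have hpi := Real.pi_gt_three
  have hpi2 := Real.pi_lt_d2
  obtain ⟨v, hv⟩ : ∃ v, v = (ur 0 : ℂ) + Complex.I * (ui 0 : ℂ) := ⟨_, rfl⟩
  have hvi : v.im = ui 0 := by rw [hv]; simp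
  have l3 : Tendsto (fun n : ℕ => 1 / (((n : ℝ) + 4) ^ 2)) atTop (𝓝 0) := by
    simp only [one_div]
    apply tendsto_inv_atTop_zero.comp
    apply (tendsto_pow_atTop (by norm_num : (2 : ℕ) ≠ 0)).comp
    exact tendsto_atTop_add_const_right _ _ tendsto_natCast_atTop_atTop
  have ev2' : ∀ᶠ n : ℕ in atTop, 1 / (((n : ℝ) + 4) ^ 2) ≤ t / (4 * Real.pi) :=
    l3.eventually (ge_mem_nhds (by positivity))
  have key : ∀ᶠ n : ℕ in atTop, (ka / (8 * Real.pi) - 1 / (((n : ℝ) + 4) ^ 2)) *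
      (t / (4 * Real.pi) - 1 / (((n : ℝ) + 4) ^ 2)) / (2 * t) -
      2 * ((2 : ℕ) : ℝ) * t⁻¹ * t⁻¹ * (1 / ((n : ℝ) + 1)) ≤ ui 0 := by
    filter_upwards [ev2'] with n hn2
    obtain ⟨L, hL⟩ : ∃ L : ℕ, L = (n + 4) ^ 2 := ⟨_, rfl⟩
    have hLne : NeZero L := ⟨by rw [hL]; positivity⟩
    have hn0 : (0 : ℝ) ≤ n := Nat.cast_nonneg n
    have hLr : (L : ℝ) = ((n : ℝ) + 4) ^ 2 := by rw [hL]; push_cast; ring
    have hL1 : 4 * ((n : ℝ) + 1) + 4 < L := by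
      rw [hLr]
      nlinarith
    rw [← hLr] at hn2 ⊢
    have a1 := freeC2 (L := L) ((n : ℝ) + 1) t ht (by positivity) hL1 E ur ui h
    rw [← hv] at a1
    have a2 := gL2_low (L := L) ka t hka hka1 ht ht1 E hE hn2
    have a3 := Complex.abs_im_le_norm (v - gL 2 L ((E : ℂ) + ((t : ℝ) : ℂ) * Complex.I))
    rw [Complex.sub_im, hvi] at a3
    have a4 := (abs_le.1 (a3.trans a1)).1
    have a5 : 2 * ((2 : ℕ) : ℝ) / ((n : ℝ) + 1) * t⁻¹ * t⁻¹ =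
      2 * ((2 : ℕ) : ℝ) * t⁻¹ * t⁻¹ * (1 / ((n : ℝ) + 1)) := by ring
    rw [a5] at a4
    linarith
  have l1 : Tendsto (fun n : ℕ => 1 / ((n : ℝ) + 1)) atTop (𝓝 0) :=
    tendsto_one_div_add_atTop_nhds_zero_nat
  have l4 := ((((l3.const_sub (ka / (8 * Real.pi))).mul
    (l3.const_sub (t / (4 * Real.pi)))).div_const (2 * t))).sub
    (l1.const_mul (2 * ((2 : ℕ) : ℝ) * t⁻¹ * t⁻¹))
  simp only [mul_zero, sub_zero] at l4
  have h5 := le_of_tendsto l4 key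
  refine le_trans ?_ h5
  have h6 : ka / (8 * Real.pi) * (t / (4 * Real.pi)) / (2 * t) = ka / (64 * Real.pi ^ 2) := by
    field_simp
    norm_num
  rw [h6]
  apply div_le_div_of_nonneg_left hka.le (by positivity)
  nlinarith

/-- the imaginary part of the boundary value -/
theorem gam_low (ka : ℝ) (hka : 0 < ka) (hka1 : ka ≤ 1) (m0 : Measure ℝ)
    (h : Res 2 (fun _ => 2 * ((2 : ℕ) : ℝ)) 0 m0)
    (e0 : ℝ) (he0 : |2 * ((2 : ℕ) : ℝ) - e0| ≤ 4 - ka) (γ : ℂ)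
    (hγ : Tendsto (fun ε : ℝ => ∫ x : ℝ, ((x : ℂ) - ((e0 : ℂ) +
      (ε : ℂ) * Complex.I))⁻¹ ∂m0) (𝓝[>] 0) (𝓝 γ)) :
    ka / 640 ≤ γ.im := by
  have key : ∀ ε : ℝ, 0 < ε → ε ≤ 1 → ka / 640 ≤ (∫ x : ℝ, ((x : ℂ) - ((e0 : ℂ) +
      (ε : ℂ) * Complex.I))⁻¹ ∂m0).im := by
    intro ε hε hε1
    obtain ⟨ur', ui', hLG', hval⟩ := bv_spec m0 h (2 * ((2 : ℕ) : ℝ) - e0) ε hε
    have h1 := inf_low ka ε hka hka1 hε hε1 _ he0 ur' ui' hLG'
    have h2 : (2 * ((2 : ℕ) : ℝ) - (2 * ((2 : ℕ) : ℝ) - e0) : ℝ) = e0 := by ring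
    rw [h2] at hval
    have h3 := congrArg Complex.im hval
    simp only [Complex.neg_im, Complex.conj_im, neg_neg] at h3
    rw [← h3]
    simpa using h1
  have l1 : Tendsto (fun ε : ℝ => (∫ x : ℝ, ((x : ℂ) - ((e0 : ℂ) +
      (ε : ℂ) * Complex.I))⁻¹ ∂m0).im) (𝓝[>] 0) (𝓝 γ.im) :=
    (Complex.continuous_im.tendsto γ).comp hγ
  refine ge_of_tendsto l1 ?_
  have hmem : Set.Ioc (0 : ℝ) 1 ∈ 𝓝[>] (0 : ℝ) := Ioc_mem_nhdsGT one_pos
  filter_upwards [hmem] with ε hε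
  exact key ε hε.1 hε.2

/-- the boundary value exists -/
theorem gam_ex (ka : ℝ) (hka : 0 < ka) (hka1 : ka ≤ 1) (m0 : Measure ℝ)
    (h : Res 2 (fun _ => 2 * ((2 : ℕ) : ℝ)) 0 m0)
    (e0 : ℝ) (he0 : Bu ka (2 * ((2 : ℕ) : ℝ) - e0)) :
    ∃ γ : ℂ, Tendsto (fun ε : ℝ => ∫ x : ℝ, ((x : ℂ) - ((e0 : ℂ) +
      (ε : ℂ) * Complex.I))⁻¹ ∂m0) (𝓝[>] 0) (𝓝 γ) := by
  obtain ⟨f, hf⟩ : ∃ f : ℝ → ℂ, f = fun ε : ℝ => ∫ x : ℝ, ((x : ℂ) - ((e0 : ℂ) +
      (ε : ℂ) * Complex.I))⁻¹ ∂m0 := ⟨_, rfl⟩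
  rw [← hf]
  have hCH := CH_ge ka
  have key : ∀ s t : ℝ, 0 < s → s ≤ 1 → 0 < t → t ≤ 1 →
      ‖f s - f t‖ ≤ CH ka * |s - t| ^ (1 / 4 : ℝ) := by
    intro s t hs hs1 ht ht1
    obtain ⟨ur, ui, hLG, hval⟩ := bv_spec m0 h (2 * ((2 : ℕ) : ℝ) - e0) s hs
    obtain ⟨ur', ui', hLG', hval'⟩ := bv_spec m0 h (2 * ((2 : ℕ) : ℝ) - e0) t ht
    have h1 := inf_holder2 ka hka hka1 _ _ s t he0 he0 hs ht hs1 ht1 ur ui ur' ui' hLG hLG'
    have h2 : (2 * ((2 : ℕ) : ℝ) - (2 * ((2 : ℕ) : ℝ) - e0) : ℝ) = e0 := by ring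
    rw [h2] at hval hval'
    have e1 : (ur 0 : ℂ) + Complex.I * (ui 0 : ℂ) = -(starRingEnd ℂ) (f s) := by
      rw [hf]
      exact hval
    have e2 : (ur' 0 : ℂ) + Complex.I * (ui' 0 : ℂ) = -(starRingEnd ℂ) (f t) := by
      rw [hf]
      exact hval'
    rw [e1, e2] at h1
    have e3 : -(starRingEnd ℂ) (f s) - -(starRingEnd ℂ) (f t) = -(starRingEnd ℂ) (f s - f t) := by
      rw [map_sub]
      ring
    rw [e3, norm_neg, RCLike.norm_conj] at h1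
    refine h1.trans (le_of_eq ?_)
    congr 2
    have e4 : (((2 * ((2 : ℕ) : ℝ) - e0 : ℝ) : ℂ) + ((s : ℝ) : ℂ) * Complex.I) -
        (((2 * ((2 : ℕ) : ℝ) - e0 : ℝ) : ℂ) + ((t : ℝ) : ℂ) * Complex.I) =
        ((s - t : ℝ) : ℂ) * Complex.I := by
      push_cast
      ring
    rw [e4, norm_mul, Complex.norm_I, mul_one, Complex.norm_real, Real.norm_eq_abs]
  have hca : Cauchy (map f (𝓝[>] (0 : ℝ))) := by
    rw [Metric.cauchy_iff]
    refine ⟨inferInstance, fun ε hε => ?_⟩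
    obtain ⟨δ, hδ⟩ : ∃ δ, δ = min 1 ((ε / (2 * CH ka)) ^ 4) := ⟨_, rfl⟩
    have hδ0 : 0 < δ := by
      rw [hδ]
      exact lt_min one_pos (by positivity)
    refine ⟨f '' Set.Ioo 0 δ, image_mem_map (Ioo_mem_nhdsGT hδ0), ?_⟩
    rintro _ ⟨x, hx, rfl⟩ _ ⟨y, hy, rfl⟩
    have hx1 : x ≤ 1 := hx.2.le.trans (by rw [hδ]; exact min_le_left _ _)
    have hy1 : y ≤ 1 := hy.2.le.trans (by rw [hδ]; exact min_le_left _ _)
    rw [dist_eq_norm]
    have hxy : |x - y| ≤ (ε / (2 * CH ka)) ^ 4 := by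
      have h1 : |x - y| ≤ δ := by
        rw [abs_le]
        constructor
        · linarith [hx.1, hy.2]
        · linarith [hx.2, hy.1]
      exact h1.trans (by rw [hδ]; exact min_le_right _ _)
    have h2 : |x - y| ^ (1 / 4 : ℝ) ≤ ε / (2 * CH ka) := by
      have h3 := Real.rpow_le_rpow (abs_nonneg _) hxy (by norm_num : (0 : ℝ) ≤ 1 / 4)
      refine h3.trans (le_of_eq ?_)
      rw [← Real.rpow_natCast, ← Real.rpow_mul (by positivity)]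
      norm_num
    calc ‖f x - f y‖ ≤ CH ka * |x - y| ^ (1 / 4 : ℝ) := key x y hx.1 hx1 hy.1 hy1
      _ ≤ CH ka * (ε / (2 * CH ka)) := by gcongr
      _ = ε / 2 := by field_simp
      _ < ε := by linarith
  exact cauchy_map_iff_exists_tendsto.1 hca

end Pool.Agent.TH311.LL2D
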