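import Pool.Agent.TH311.LL2D.One

/-! The free resolvent of the two-dimensional torus in the bulk. -/

set_option autoImplicit false
set_option linter.unusedSectionVars false

open scoped BigOperators

namespace Pool.Agent.TH311.LL2D

open Pool.Agent.W788.MFP.Four (T adj NN NN_pos card_T)
open Pool.Agent.W788.MFP.Dos (a a_abs mm count1 dy_conv)
open Pool.Agent.TH311.AN2 (co si co_sq a_co adj2)
open Pool.Agent.TH794.LL2 (gL)

variable {L : ℕ} [NeZero L]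

/-- the constant -/
noncomputable def CB (ka : ℝ) : ℝ := 65 / ka ^ 2

theorem CB_nonneg (ka : ℝ) : 0 ≤ CB ka := by
  unfold CB
  positivity

/-- the singularity is a square root -/
theorem shell (ka t : ℝ) (hka : 0 < ka) (z : ℂ) (hz1 : ka ≤ |z.re|) (hz2 : |z.re| ≤ 4 - ka)
    (hz : t ≤ z.im) (ht : 0 < t) : ∃ y : ℝ, |y| ≤ 2 - ka ∧
      ∀ v : ℝ, |v| ≤ 2 → ka * max |v - y| t ≤ ‖(z - (v : ℂ)) ^ 2 - 4‖ := by
  have key : ∀ (w : ℂ) (r : ℝ), |w.re| = r → t ≤ w.im → max r t ≤ ‖w‖ := by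
    intro w r h1 h2
    refine max_le ?_ ?_
    · rw [← h1]
      exact Complex.abs_re_le_norm w
    · exact h2.trans ((le_abs_self _).trans (Complex.abs_im_le_norm w))
  rcases le_or_gt 0 z.re with h | h
  · rw [abs_of_nonneg h] at hz1 hz2
    refine ⟨z.re - 2, ?_, fun v hv => ?_⟩
    · rw [abs_le]
      constructor <;> linarith
    · have e1 : (z - (v : ℂ)) ^ 2 - 4 = (z - (v : ℂ) + 2) * (z - (v : ℂ) - 2) := by ring
      rw [e1, norm_mul]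
      refine mul_le_mul ?_ ?_ (le_max_of_le_right ht.le) (norm_nonneg _)
      · refine le_trans ?_ (Complex.abs_re_le_norm _)
        refine le_trans ?_ (le_abs_self _)
        have : (z - (v : ℂ) + 2).re = z.re - v + 2 := by simp
        rw [this]
        have := (abs_le.1 hv).2
        linarith
      · apply key
        · have : (z - (v : ℂ) - 2).re = z.re - v - 2 := by simp
          rw [this, abs_sub_comm v]
          congr 1
          ring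
        · have : (z - (v : ℂ) - 2).im = z.im := by simp
          rw [this]
          exact hz
  · rw [abs_of_neg h] at hz1 hz2
    refine ⟨z.re + 2, ?_, fun v hv => ?_⟩
    · rw [abs_le]
      constructor <;> linarith
    · have e1 : (z - (v : ℂ)) ^ 2 - 4 = (z - (v : ℂ) - 2) * (z - (v : ℂ) + 2) := by ring
      rw [e1, norm_mul]
      refine mul_le_mul ?_ ?_ (le_max_of_le_right ht.le) (norm_nonneg _)
      · refine le_trans ?_ (Complex.abs_re_le_norm _)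
        refine le_trans ?_ (neg_le_abs _)
        have : (z - (v : ℂ) - 2).re = z.re - v - 2 := by simp
        rw [this]
        have := (abs_le.1 hv).1
        linarith
      · apply key
        · have : (z - (v : ℂ) + 2).re = z.re - v + 2 := by simp
          rw [this, abs_sub_comm v]
          congr 1
          ring
        · have : (z - (v : ℂ) + 2).im = z.im := by simp
          rw [this]
          exact hz

/-- the average of the singularity -/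
theorem sumS (ka t : ℝ) (hka : 0 < ka) (hka1 : ka ≤ 1) (ht1 : t ≤ 1)
    (hL : 1 / (L : ℝ) ≤ t) (z : ℂ) (hz1 : ka ≤ |z.re|) (hz2 : |z.re| ≤ 4 - ka)
    (hz : t ≤ z.im) :
    ∑ j : ZMod L, ‖(z - ((a j : ℝ) : ℂ)) ^ 2 - 4‖ ^ (-(3 / 4) : ℝ) ≤ CB ka * L := by
  have hL0 : (0 : ℝ) < L := by exact_mod_cast Nat.pos_of_ne_zero (NeZero.ne L)
  have ht : 0 < t := lt_of_lt_of_le (by positivity) hL
  obtain ⟨y, hy, hv⟩ := shell ka t hka z hz1 hz2 hz ht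
  have hs : 0 < Real.sqrt ka := Real.sqrt_pos.2 hka
  have h1 := dy_conv (fun j : ZMod L => |a j - y|) t (3 / 4) (4 / Real.sqrt ka) L ht ht1
    (by norm_num) (by norm_num) (by positivity) (by rw [ZMod.card]) (fun r hr hr1 => by
      have hr0 : 0 < r := ht.trans_le hr
      refine (count1 (L := L) y r (hL.trans hr) (by linarith)).trans ?_
      have e1 : Real.sqrt ka ≤ Real.sqrt (max (mm y) r) := by
        apply Real.sqrt_le_sqrt
        refine le_trans ?_ (le_max_left _ _)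
        unfold mm
        rw [abs_sub_comm]
        refine le_trans ?_ (le_abs_self _)
        linarith
      have e2 : r ^ ((3 / 4 : ℝ) + 1 / 4) = r := by norm_num
      rw [e2]
      calc 4 * L * (r / Real.sqrt (max (mm y) r)) ≤ 4 * L * (r / Real.sqrt ka) := by gcongr
        _ = _ := by ring)
  have h2 : ∀ j : ZMod L, ‖(z - ((a j : ℝ) : ℂ)) ^ 2 - 4‖ ^ (-(3 / 4) : ℝ) ≤
      ka⁻¹ * (max |a j - y| t) ^ (-(3 / 4) : ℝ) := by
    intro j
    have hm : 0 < max |a j - y| t := lt_of_lt_of_le ht (le_max_right _ _)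
    have e1 : ‖(z - ((a j : ℝ) : ℂ)) ^ 2 - 4‖ ^ (-(3 / 4) : ℝ) ≤
        (ka * max |a j - y| t) ^ (-(3 / 4) : ℝ) :=
      Real.rpow_le_rpow_of_nonpos (by positivity) (hv (a j) (a_abs j)) (by norm_num)
    refine e1.trans ?_
    rw [Real.mul_rpow hka.le hm.le]
    apply mul_le_mul_of_nonneg_right _ (by positivity)
    rw [← Real.rpow_neg_one]
    exact Real.rpow_le_rpow_of_exponent_ge hka hka1 (by norm_num)
  refine (Finset.sum_le_sum fun j _ => h2 j).trans ?_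
  rw [← Finset.mul_sum]
  calc ka⁻¹ * ∑ j : ZMod L, (max |a j - y| t) ^ (-(3 / 4) : ℝ) ≤
      ka⁻¹ * (L * (1 + 16 * (4 / Real.sqrt ka))) := by gcongr
    _ ≤ ka⁻¹ * (L * (65 * ka⁻¹)) := by
        have e1 : ka ≤ Real.sqrt ka := by
          apply Real.le_sqrt_of_sq_le
          nlinarith
        have e2 : 4 / Real.sqrt ka ≤ 4 * ka⁻¹ := by
          rw [div_eq_mul_inv]
          gcongr
        have e3 : 1 ≤ ka⁻¹ := (one_le_inv₀ hka).2 hka1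
        have e4 : 1 + 16 * (4 / Real.sqrt ka) ≤ 65 * ka⁻¹ := by linarith
        gcongr
    _ = _ := by
        unfold CB
        field_simp

/-- the power of the root -/
theorem root_pow (s w : ℂ) (h : s ^ 2 = w ^ 2 - 4) (hs : s ≠ 0) :
    (Real.sqrt ‖s‖)⁻¹ ^ 3 = ‖w ^ 2 - 4‖ ^ (-(3 / 4) : ℝ) := by
  rw [← h, norm_pow]
  have hp : 0 < ‖s‖ := norm_pos_iff.2 hs
  generalize ‖s‖ = p at hp
  rw [Real.sqrt_eq_rpow, ← Real.rpow_natCast p 2, ← Real.rpow_mul hp.le,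
    ← Real.rpow_neg hp.le, ← Real.rpow_natCast _ 3, ← Real.rpow_mul hp.le]
  norm_num

theorem sum_T2c (f : T 2 L → ℂ) : ∑ k, f k = ∑ x : ZMod L, ∑ y : ZMod L, f ![x, y] := by
  rw [← (finTwoArrowEquiv (ZMod L)).symm.sum_comp, Fintype.sum_prod_type]
  rfl

theorem gL2_eq (z : ℂ) : gL 2 L z = ((L : ℂ) ^ 2)⁻¹ * ∑ x : ZMod L, ∑ y : ZMod L,
    (((a y : ℝ) : ℂ) - (z - ((a x : ℝ) : ℂ)))⁻¹ := by
  unfold gL
  rw [sum_T2c]
  have h1 : ((NN 2 L : ℝ) : ℂ) = (L : ℂ) ^ 2 := by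
    unfold NN
    push_cast
    ring
  rw [h1]
  congr 1
  refine Finset.sum_congr rfl fun x _ => Finset.sum_congr rfl fun y _ => ?_
  rw [adj2]
  congr 1
  push_cast
  ring

/-- the free resolvent is bounded in the bulk -/
theorem gL2_bd (ka t : ℝ) (hka : 0 < ka) (hka1 : ka ≤ 1) (ht1 : t ≤ 1)
    (hL : 1 / (L : ℝ) ≤ t) (he : Real.exp (-(t * L / 4)) ≤ 1 / 4) (z : ℂ)
    (hz1 : ka ≤ |z.re|) (hz2 : |z.re| ≤ 4 - ka) (hz : t ≤ z.im) :
    ‖gL 2 L z‖ ≤ 2 * (1 + CB ka) := by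
  have hL0 : (0 : ℝ) < L := by exact_mod_cast Nat.pos_of_ne_zero (NeZero.ne L)
  have ht : 0 < t := lt_of_lt_of_le (by positivity) hL
  rw [gL2_eq, norm_mul, norm_inv, norm_pow, Complex.norm_natCast, inv_mul_le_iff₀ (by positivity)]
  have h1 : ∀ x : ZMod L, ‖∑ y : ZMod L, (((a y : ℝ) : ℂ) - (z - ((a x : ℝ) : ℂ)))⁻¹‖ ≤
      2 * L * (1 + ‖(z - ((a x : ℝ) : ℂ)) ^ 2 - 4‖ ^ (-(3 / 4) : ℝ)) := by
    intro x
    obtain ⟨s, hs, him, -, hG⟩ := root (L := L) (z - ((a x : ℝ) : ℂ)) t ht ht1 (by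
      rw [Complex.sub_im, Complex.ofReal_im, sub_zero]
      exact hz)
    have hG' := hG (by linarith)
    have hs0 : s ≠ 0 := by
      intro h
      rw [h] at him
      simp at him
    rw [← root_pow s _ hs hs0]
    obtain ⟨S, hS⟩ : ∃ S, S = ∑ y : ZMod L, (((a y : ℝ) : ℂ) - (z - ((a x : ℝ) : ℂ)))⁻¹ :=
      ⟨_, rfl⟩
    rw [← hS] at hG' ⊢
    have e1 : ‖S‖ ≤ ‖S + (L : ℂ) * s⁻¹‖ + L * ‖s⁻¹‖ := by
      have := norm_sub_le (S + (L : ℂ) * s⁻¹) ((L : ℂ) * s⁻¹)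
      rwa [add_sub_cancel_right, norm_mul (L : ℂ), Complex.norm_natCast] at this
    obtain ⟨v, hv⟩ : ∃ v, v = (Real.sqrt ‖s‖)⁻¹ := ⟨_, rfl⟩
    have hv0 : 0 ≤ v := by rw [hv]; positivity
    have hv2 : ‖s⁻¹‖ = v ^ 2 := by
      rw [hv, inv_pow, Real.sq_sqrt (norm_nonneg _), norm_inv]
    rw [hv2] at e1 hG'
    rw [← hv]
    have e2 : v ^ 2 ≤ 1 + v ^ 3 := by nlinarith [mul_nonneg hv0 (sq_nonneg (v - 1))]
    have e3 : (L : ℝ) * (4 * Real.exp (-(t * L / 4))) * v ^ 2 ≤ L * 1 * v ^ 2 := by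
      gcongr
      linarith
    have e4 : (L : ℝ) * v ^ 2 ≤ L * (1 + v ^ 3) := by gcongr
    linarith
  refine (norm_sum_le _ _).trans ((Finset.sum_le_sum fun x _ => h1 x).trans ?_)
  rw [← Finset.mul_sum, Finset.sum_add_distrib, Finset.sum_const, Finset.card_univ, ZMod.card,
    nsmul_eq_mul, mul_one]
  have h2 := sumS (L := L) ka t hka hka1 ht1 hL z hz1 hz2 hz
  calc 2 * (L : ℝ) * (L + ∑ x : ZMod L, ‖(z - ((a x : ℝ) : ℂ)) ^ 2 - 4‖ ^ (-(3 / 4) : ℝ)) ≤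
      2 * L * (L + CB ka * L) := by gcongr
    _ = _ := by ring

theorem sqrt_sqrt (Δ : ℝ) (hΔ : 0 ≤ Δ) (B : ℝ) (hB : 0 ≤ B) (hB1 : B ≤ 16) :
    Real.sqrt (Real.sqrt (Δ * B)) ≤ 2 * Δ ^ (1 / 4 : ℝ) := by
  have e1 : Real.sqrt (Real.sqrt Δ) = Δ ^ (1 / 4 : ℝ) := by
    rw [Real.sqrt_eq_rpow, Real.sqrt_eq_rpow, ← Real.rpow_mul hΔ]
    norm_num
  rw [← e1]
  have e2 : Real.sqrt (Δ * B) ≤ 4 * Real.sqrt Δ := by
    rw [Real.sqrt_le_left (by positivity), mul_pow, Real.sq_sqrt hΔ]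
    nlinarith
  have e3 : Real.sqrt (4 * Real.sqrt Δ) = 2 * Real.sqrt (Real.sqrt Δ) := by
    rw [Real.sqrt_mul (by norm_num)]
    have : (4 : ℝ) = 2 ^ 2 := by norm_num
    rw [this, Real.sqrt_sq (by norm_num)]
  exact (Real.sqrt_le_sqrt e2).trans (le_of_eq e3)

/-- the constant of the Hölder estimate -/
noncomputable def CH (ka : ℝ) : ℝ := 8 * (1 + CB ka)

theorem CH_ge (ka : ℝ) : 8 ≤ CH ka := by
  have := CB_nonneg ka
  unfold CH
  linarith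

/-- the free resolvent is Hölder continuous in the bulk -/
theorem gL2_holder (ka t : ℝ) (hka : 0 < ka) (hka1 : ka ≤ 1) (ht1 : t ≤ 1)
    (hL : 1 / (L : ℝ) ≤ t) (he : Real.exp (-(t * L / 4)) ≤ 1 / 4) (z z' : ℂ)
    (hz1 : ka ≤ |z.re|) (hz2 : |z.re| ≤ 4 - ka) (hz : t ≤ z.im) (hz3 : z.im ≤ 1)
    (hz1' : ka ≤ |z'.re|) (hz2' : |z'.re| ≤ 4 - ka) (hz' : t ≤ z'.im) (hz3' : z'.im ≤ 1) :
    ‖gL 2 L z - gL 2 L z'‖ ≤ CH ka * ‖z - z'‖ ^ (1 / 4 : ℝ) +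
      CH ka * Real.exp (-(t * L / 4)) := by
  have hL0 : (0 : ℝ) < L := by exact_mod_cast Nat.pos_of_ne_zero (NeZero.ne L)
  have ht : 0 < t := lt_of_lt_of_le (by positivity) hL
  have hCB := CB_nonneg ka
  obtain ⟨x, hx⟩ : ∃ x, x = Real.exp (-(t * L / 4)) := ⟨_, rfl⟩
  have hx0 : 0 < x := by rw [hx]; positivity
  obtain ⟨Δ, hΔ⟩ : ∃ Δ, Δ = ‖z - z'‖ := ⟨_, rfl⟩
  have hΔ0 : 0 ≤ Δ := by rw [hΔ]; exact norm_nonneg _
  have hD0 : 0 ≤ Δ ^ (1 / 4 : ℝ) := by positivity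
  rcases le_or_gt Δ (1 / 2) with hc | hc
  swap
  · have h1 := gL2_bd (L := L) ka t hka hka1 ht1 hL he z hz1 hz2 hz
    have h2 := gL2_bd (L := L) ka t hka hka1 ht1 hL he z' hz1' hz2' hz'
    have h3 := norm_sub_le (gL 2 L z) (gL 2 L z')
    rw [← hx, ← hΔ]
    have h4 : 1 / 2 ≤ Δ ^ (1 / 4 : ℝ) := by
      have e1 := Real.rpow_le_rpow (by norm_num) hc.le (show (0 : ℝ) ≤ 1 / 4 by norm_num)
      have e2 : (1 / 2 : ℝ) ≤ (1 / 2 : ℝ) ^ (1 / 4 : ℝ) := by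
        have := Real.rpow_le_rpow_of_exponent_ge (show (0 : ℝ) < 1 / 2 by norm_num)
          (by norm_num) (show (1 / 4 : ℝ) ≤ 1 by norm_num)
        rwa [Real.rpow_one] at this
      linarith
    have h5 : CH ka * (1 / 2) ≤ CH ka * Δ ^ (1 / 4 : ℝ) := by
      have := CH_ge ka
      gcongr
    have h6 : 0 ≤ CH ka * x := by
      have := CH_ge ka
      positivity
    unfold CH at *
    linarith
  rw [gL2_eq, gL2_eq, ← mul_sub, ← Finset.sum_sub_distrib, norm_mul, norm_inv, norm_pow,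
    Complex.norm_natCast, inv_mul_le_iff₀ (by positivity)]
  have h1 : ∀ j : ZMod L, ‖∑ y : ZMod L, (((a y : ℝ) : ℂ) - (z - ((a j : ℝ) : ℂ)))⁻¹ -
      ∑ y : ZMod L, (((a y : ℝ) : ℂ) - (z' - ((a j : ℝ) : ℂ)))⁻¹‖ ≤
      L * (2 * Δ ^ (1 / 4 : ℝ) + 4 * x) * (‖(z - ((a j : ℝ) : ℂ)) ^ 2 - 4‖ ^ (-(3 / 4) : ℝ) +
        ‖(z' - ((a j : ℝ) : ℂ)) ^ 2 - 4‖ ^ (-(3 / 4) : ℝ)) + L * (8 * x) := by
    intro j
    obtain ⟨w, hw⟩ : ∃ w, w = z - ((a j : ℝ) : ℂ) := ⟨_, rfl⟩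
    obtain ⟨w', hw'⟩ : ∃ w, w = z' - ((a j : ℝ) : ℂ) := ⟨_, rfl⟩
    rw [← hw, ← hw']
    have hwi : w.im = z.im := by rw [hw, Complex.sub_im, Complex.ofReal_im, sub_zero]
    have hwi' : w'.im = z'.im := by rw [hw', Complex.sub_im, Complex.ofReal_im, sub_zero]
    obtain ⟨s, hs, him, ⟨c, hc0, hc1, hre⟩, hG⟩ := root (L := L) w t ht ht1 (by rw [hwi]; exact hz)
    obtain ⟨s', hs', him', ⟨c', hc0', hc1', hre'⟩, hG'⟩ := root (L := L) w' t ht ht1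
      (by rw [hwi']; exact hz')
    have g1 := hG (by linarith)
    have g2 := hG' (by linarith)
    rw [← hx] at g1 g2
    have hs0 : s ≠ 0 := by
      intro h
      rw [h] at him
      simp at him
    have hs0' : s' ≠ 0 := by
      intro h
      rw [h] at him'
      simp at him'
    have hww : w - w' = z - z' := by rw [hw, hw']; ring
    have h2 := two_roots w w' s s' hs hs' him him' c c' hc0 hc1 hc0' hc1' hre hre'
      (by rw [hww, ← hΔ]; exact hc)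
    rw [← root_pow s w hs hs0, ← root_pow s' w' hs' hs0']
    have h3 : Real.sqrt (Real.sqrt ‖w ^ 2 - w' ^ 2‖) ≤ 2 * Δ ^ (1 / 4 : ℝ) := by
      have e1 : w ^ 2 - w' ^ 2 = (w - w') * (w + w') := by ring
      rw [e1, norm_mul, hww, ← hΔ]
      apply sqrt_sqrt Δ hΔ0 _ (norm_nonneg _)
      have e2 : ∀ z : ℂ, |z.re| ≤ 4 - ka → t ≤ z.im → z.im ≤ 1 → ‖z - ((a j : ℝ) : ℂ)‖ ≤ 7 := by
        intro z h1 h2 h3
        have f1 := norm_sub_le z ((a j : ℝ) : ℂ)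
        rw [Complex.norm_real, Real.norm_eq_abs] at f1
        have f2 := a_abs j
        have f3 := Complex.norm_le_abs_re_add_abs_im z
        have f4 : |z.im| ≤ 1 := by
          rw [abs_of_nonneg (by linarith)]
          exact h3
        linarith
      have e3 := e2 z hz2 hz hz3
      have e4 := e2 z' hz2' hz' hz3'
      rw [← hw] at e3
      rw [← hw'] at e4
      have e5 := norm_add_le w w'
      linarith
    obtain ⟨S, hS⟩ : ∃ S, S = ∑ y : ZMod L, (((a y : ℝ) : ℂ) - w)⁻¹ := ⟨_, rfl⟩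
    obtain ⟨S', hS'⟩ : ∃ S, S = ∑ y : ZMod L, (((a y : ℝ) : ℂ) - w')⁻¹ := ⟨_, rfl⟩
    rw [← hS] at g1 ⊢
    rw [← hS'] at g2 ⊢
    obtain ⟨v, hv⟩ : ∃ v, v = (Real.sqrt ‖s‖)⁻¹ := ⟨_, rfl⟩
    have hv0 : 0 ≤ v := by rw [hv]; positivity
    have hv2 : ‖s⁻¹‖ = v ^ 2 := by
      rw [hv, inv_pow, Real.sq_sqrt (norm_nonneg _), norm_inv]
    obtain ⟨v', hv'⟩ : ∃ v, v = (Real.sqrt ‖s'‖)⁻¹ := ⟨_, rfl⟩
    have hv0' : 0 ≤ v' := by rw [hv']; positivity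
    have hv2' : ‖s'⁻¹‖ = v' ^ 2 := by
      rw [hv', inv_pow, Real.sq_sqrt (norm_nonneg _), norm_inv]
    rw [hv2] at g1
    rw [hv2'] at g2
    rw [← hv, ← hv'] at h2 ⊢
    have e1 : S - S' = (S + (L : ℂ) * s⁻¹) - (S' + (L : ℂ) * s'⁻¹) -
        (L : ℂ) * (s⁻¹ - s'⁻¹) := by ring
    have e2 : ‖S - S'‖ ≤ ‖S + (L : ℂ) * s⁻¹‖ + ‖S' + (L : ℂ) * s'⁻¹‖ +
        L * ‖s⁻¹ - s'⁻¹‖ := by
      rw [e1]
      refine (norm_sub_le _ _).trans ?_
      rw [norm_mul (L : ℂ), Complex.norm_natCast]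
      have := norm_sub_le (S + (L : ℂ) * s⁻¹) (S' + (L : ℂ) * s'⁻¹)
      linarith
    have e3 : ∀ v : ℝ, 0 ≤ v → v ^ 2 ≤ 1 + v ^ 3 := by
      intro v hv0
      nlinarith [mul_nonneg hv0 (sq_nonneg (v - 1))]
    have e4 : (L : ℝ) * ‖s⁻¹ - s'⁻¹‖ ≤ L * (2 * Δ ^ (1 / 4 : ℝ) * (v ^ 3 + v' ^ 3)) := by
      apply mul_le_mul_of_nonneg_left _ hL0.le
      refine h2.trans ?_
      exact mul_le_mul_of_nonneg_right h3 (by positivity)
    have e5 : (L : ℝ) * (4 * x) * v ^ 2 ≤ L * (4 * x) * (1 + v ^ 3) := by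
      have := e3 v hv0
      gcongr
    have e6 : (L : ℝ) * (4 * x) * v' ^ 2 ≤ L * (4 * x) * (1 + v' ^ 3) := by
      have := e3 v' hv0'
      gcongr
    refine e2.trans ?_
    calc ‖S + (L : ℂ) * s⁻¹‖ + ‖S' + (L : ℂ) * s'⁻¹‖ + L * ‖s⁻¹ - s'⁻¹‖ ≤
        L * (4 * x) * (1 + v ^ 3) + L * (4 * x) * (1 + v' ^ 3) +
          L * (2 * Δ ^ (1 / 4 : ℝ) * (v ^ 3 + v' ^ 3)) := by linarith
      _ = _ := by ring
  refine (norm_sum_le _ _).trans ((Finset.sum_le_sum fun j _ => h1 j).trans ?_)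
  rw [Finset.sum_add_distrib, ← Finset.mul_sum, Finset.sum_add_distrib, Finset.sum_const,
    Finset.card_univ, ZMod.card, nsmul_eq_mul, ← hx, ← hΔ]
  have h2 := sumS (L := L) ka t hka hka1 ht1 hL z hz1 hz2 hz
  have h3 := sumS (L := L) ka t hka hka1 ht1 hL z' hz1' hz2' hz'
  calc (L : ℝ) * (2 * Δ ^ (1 / 4 : ℝ) + 4 * x) *
        (∑ j : ZMod L, ‖(z - ((a j : ℝ) : ℂ)) ^ 2 - 4‖ ^ (-(3 / 4) : ℝ) +
        ∑ j : ZMod L, ‖(z' - ((a j : ℝ) : ℂ)) ^ 2 - 4‖ ^ (-(3 / 4) : ℝ)) + L * (L * (8 * x)) ≤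
      L * (2 * Δ ^ (1 / 4 : ℝ) + 4 * x) * (CB ka * L + CB ka * L) + L * (L * (8 * x)) := by
        gcongr
    _ = L ^ 2 * (4 * CB ka * Δ ^ (1 / 4 : ℝ) + 8 * (1 + CB ka) * x) := by ring
    _ ≤ L ^ 2 * (CH ka * Δ ^ (1 / 4 : ℝ) + CH ka * x) := by
        apply mul_le_mul_of_nonneg_left _ (by positivity)
        unfold CH
        have : 4 * CB ka * Δ ^ (1 / 4 : ℝ) ≤ 8 * (1 + CB ka) * Δ ^ (1 / 4 : ℝ) := by
          apply mul_le_mul_of_nonneg_right _ hD0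
          linarith
        linarith

end Pool.Agent.TH311.LL2D
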