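import Pool.Agent.TH794.LL2.Tor
import Pool.Agent.TH311.LL2D.Free2

/-! The local density of states of the two-dimensional torus in the bulk, with precision. -/

set_option autoImplicit false
set_option linter.unusedSectionVars false

open scoped BigOperators Matrix
open MeasureTheory

namespace Pool.Agent.TH311.LL2D

open Pool.Agent.W788.BK
open Pool.Agent.W788.MFP.Four (T e NN adj K ft Op q NN_pos e_zero)
open Pool.Agent.TH794.LL2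

variable {d L : ℕ} [NeZero L]

/-- bulk energies -/
def Bu (ka E : ℝ) : Prop := ka ≤ |E| ∧ |E| ≤ 4 - ka

theorem Bu.near {ka ka' E E' r : ℝ} (h : Bu ka' E) (hr : |E - E'| ≤ r) (hk : ka + r ≤ ka') :
    Bu ka E' := by
  have h1 := abs_sub_abs_le_abs_sub E E'
  have h2 := abs_sub_abs_le_abs_sub E' E
  rw [abs_sub_comm] at h2
  constructor
  · linarith [h.1]
  · linarith [h.2]

/-- the mean of the local density of states -/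
theorem mean_G02 (hTH : S_THIRD) (hFL : S_FLUCT) (hIN : S_INV) (ka : ℝ) (hka : 0 < ka)
    (hka1 : ka ≤ 1)
    (E δ θ η a v2 Q β s2 g ε e1 x2 : ℝ) (hE : Bu (2 * ka) E) (hδ : 0 < δ) (hη : 0 < η)
    (hη1 : η ≤ 1)
    (hadm : Adm (D0 E δ) (AA (d := 2) (L := L) E δ θ) a v2 Q)
    (μ : Measure ℝ) [IsProbabilityMeasure μ] (hβ : 0 < β) (hμ : ∀ᵐ s ∂μ, |s| ≤ β)
    (h0 : ∫ s, s ∂μ = 0) (h2 : ∫ s, s ^ 2 ∂μ = s2) (hs2 : 0 ≤ s2)
    (hβa : β * a ≤ η) (hβv : β ^ 2 * v2 ≤ 1) (hε0 : 0 ≤ ε) (hε1 : ε ≤ 1 / 2)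
    (he0 : 0 ≤ e1) (he1 : e1 ≤ 1 / 4)
    (hε : 4 * β ^ 3 * a * v2 / η ^ 3 + s2 * (2 * β * Q * Real.sqrt v2 / η ^ 4) ≤ ε)
    (hg : ∀ E' : ℝ, ∑ k : T 2 L, (JJ E' (η * δ) k)⁻¹ ≤ g * NN 2 L)
    (hlow : s2 * (∑ P : T 2 L, (1 - hi θ P)) ≤ e1 * (η ^ 2 * δ ^ 2) * NN 2 L)
    (hL : 1 / (L : ℝ) ≤ η * δ) (hx : Real.exp (-(η * δ * L / 4)) ≤ 1 / 4)
    (hsg : s2 * (2 * g) ≤ ka) (hsg1 : s2 * (2 * g) + η * δ ≤ 1)
    (hx2 : 4 / 3 * (ε + e1 + (2 * η + 8 * s2 ^ 2 * g ^ 2 / δ ^ 2)) * g +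
      (CH ka * (s2 * (2 * g)) ^ (1 / 4 : ℝ) +
        CH ka * Real.exp (-(η * δ * L / 4))) ≤ x2) :
    |∫ V, FF E δ θ η V ∂(PP (T 2 L) μ) - G0 2 L E (η * δ)| ≤ x2 := by
  obtain ⟨m, hm1, hm2, hm3, hm4⟩ := mean_asym hTH hFL hIN E δ θ η a v2 Q β s2 g ε e1 hδ hη hη1
    hadm μ hβ hμ h0 h2 hs2 hβa hβv hε0 hε1 he0 he1 hε hg hlow
  have hm1' : ∫ V, FF E δ θ η V ∂(PP (T 2 L) μ) = m.im := hm1
  rw [hm1']
  have ht : 0 < η * δ := by positivity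
  have hsm : ‖(s2 : ℂ) * m‖ ≤ s2 * (2 * g) := by
    rw [norm_mul, Complex.norm_real, Real.norm_of_nonneg hs2]
    exact mul_le_mul_of_nonneg_left hm3 hs2
  have hre : ((E : ℂ) + (s2 : ℂ) * m + ((η * δ : ℝ) : ℂ) * Complex.I).re =
      E + ((s2 : ℂ) * m).re := by simp
  have him : ((E : ℂ) + (s2 : ℂ) * m + ((η * δ : ℝ) : ℂ) * Complex.I).im =
      ((s2 : ℂ) * m).im + η * δ := by simp
  have him2 : 0 ≤ ((s2 : ℂ) * m).im := by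
    rw [Complex.im_ofReal_mul]
    exact mul_nonneg hs2 hm2
  have him3 : ((s2 : ℂ) * m).im ≤ s2 * (2 * g) :=
    ((le_abs_self _).trans (Complex.abs_im_le_norm _)).trans hsm
  have hb1 : Bu ka (E + ((s2 : ℂ) * m).re) := by
    apply hE.near (r := s2 * (2 * g))
    · have : E - (E + ((s2 : ℂ) * m).re) = -((s2 : ℂ) * m).re := by ring
      rw [this, abs_neg]
      exact (Complex.abs_re_le_norm _).trans hsm
    · linarith
  have hb2 : Bu ka E := hE.near (r := 0) (by simp) (by linarith)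
  have hre2 : ((E : ℂ) + ((η * δ : ℝ) : ℂ) * Complex.I).re = E := by simp
  have him4 : ((E : ℂ) + ((η * δ : ℝ) : ℂ) * Complex.I).im = η * δ := by simp
  have hs0 : 0 ≤ s2 * (2 * g) := (norm_nonneg _).trans hsm
  have h1 := gL2_holder (L := L) ka (η * δ) hka hka1 (by linarith) hL hx
    ((E : ℂ) + (s2 : ℂ) * m + ((η * δ : ℝ) : ℂ) * Complex.I)
    ((E : ℂ) + ((η * δ : ℝ) : ℂ) * Complex.I) (by rw [hre]; exact hb1.1)
    (by rw [hre]; exact hb1.2) (by rw [him]; linarith) (by rw [him]; linarith)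
    (by rw [hre2]; exact hb2.1) (by rw [hre2]; exact hb2.2) (by rw [him4])
    (by rw [him4]; linarith)
  have h3 : ‖((E : ℂ) + (s2 : ℂ) * m + ((η * δ : ℝ) : ℂ) * Complex.I) -
      ((E : ℂ) + ((η * δ : ℝ) : ℂ) * Complex.I)‖ ≤ s2 * (2 * g) := by
    have : ((E : ℂ) + (s2 : ℂ) * m + ((η * δ : ℝ) : ℂ) * Complex.I) -
      ((E : ℂ) + ((η * δ : ℝ) : ℂ) * Complex.I) = (s2 : ℂ) * m := by ring
    rw [this]
    exact hsm
  have hCH := CH_ge ka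
  have h4 : CH ka * ‖((E : ℂ) + (s2 : ℂ) * m + ((η * δ : ℝ) : ℂ) * Complex.I) -
      ((E : ℂ) + ((η * δ : ℝ) : ℂ) * Complex.I)‖ ^ (1 / 4 : ℝ) ≤
      CH ka * (s2 * (2 * g)) ^ (1 / 4 : ℝ) :=
    mul_le_mul_of_nonneg_left (Real.rpow_le_rpow (norm_nonneg _) h3 (by norm_num))
      (by linarith)
  have h5 : |m.im - G0 2 L E (η * δ)| ≤
      ‖m - gL 2 L ((E : ℂ) + ((η * δ : ℝ) : ℂ) * Complex.I)‖ := by
    unfold G0
    rw [← Complex.sub_im]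
    exact Complex.abs_im_le_norm _
  have h6 : m - gL 2 L ((E : ℂ) + ((η * δ : ℝ) : ℂ) * Complex.I) =
      (m - gL 2 L ((E : ℂ) + (s2 : ℂ) * m + ((η * δ : ℝ) : ℂ) * Complex.I)) +
      (gL 2 L ((E : ℂ) + (s2 : ℂ) * m + ((η * δ : ℝ) : ℂ) * Complex.I) -
        gL 2 L ((E : ℂ) + ((η * δ : ℝ) : ℂ) * Complex.I)) := by ring
  rw [h6] at h5
  have h7 := norm_add_le (m - gL 2 L ((E : ℂ) + (s2 : ℂ) * m + ((η * δ : ℝ) : ℂ) * Complex.I))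
    (gL 2 L ((E : ℂ) + (s2 : ℂ) * m + ((η * δ : ℝ) : ℂ) * Complex.I) -
        gL 2 L ((E : ℂ) + ((η * δ : ℝ) : ℂ) * Complex.I))
  linarith

/-- the good event, for the energies of a set -/
def GoodB (B : ℝ → Prop) (δ θ η τ ζ e2 : ℝ) (M : ℕ) : Set (T d L → ℝ) :=
  {V | (∀ x, |UU θ V x| ≤ τ) ∧
    ∀ j ∈ Finset.Icc (-(M : ℤ)) M, B (ζ * j) →
      |FF (ζ * j) δ θ η V - G0 d L (ζ * j) (η * δ)| ≤ e2}

theorem goodB_meas (B : ℝ → Prop) (δ θ η τ ζ e2 : ℝ) (M : ℕ) (hη : 0 < η)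
    (hX : ∀ E, (D0 (d := d) (L := L) E δ).IsHermitian)
    (hA : ∀ E y, (AA (d := d) (L := L) E δ θ y).IsHermitian) :
    MeasurableSet (GoodB (d := d) (L := L) B δ θ η τ ζ e2 M) := by
  have h1 : GoodB (d := d) (L := L) B δ θ η τ ζ e2 M = (⋂ x, {V | |UU θ V x| ≤ τ}) ∩
      ⋂ j ∈ Finset.Icc (-(M : ℤ)) M,
        {V | B (ζ * j) → |FF (ζ * j) δ θ η V - G0 d L (ζ * j) (η * δ)| ≤ e2} := by
    ext V
    simp [GoodB]
  rw [h1]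
  refine MeasurableSet.inter (MeasurableSet.iInter fun x => ?_)
    (Finset.measurableSet_biInter _ fun j _ => ?_)
  · exact (isClosed_le (continuous_UU θ x).abs continuous_const).measurableSet
  · by_cases hB : B (ζ * j)
    · have h2 : {V : T d L → ℝ | B (ζ * j) →
          |FF (ζ * j) δ θ η V - G0 d L (ζ * j) (η * δ)| ≤ e2} =
          {V : T d L → ℝ | |FF (ζ * j) δ θ η V - G0 d L (ζ * j) (η * δ)| ≤ e2} := by
        ext V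
        simp [hB]
      rw [h2]
      exact (isClosed_le ((continuous_FF _ δ θ η hη (hX _) (hA _)).sub continuous_const).abs
        continuous_const).measurableSet
    · have h2 : {V : T d L → ℝ | B (ζ * j) →
          |FF (ζ * j) δ θ η V - G0 d L (ζ * j) (η * δ)| ≤ e2} = Set.univ := by
        ext V
        simp [hB]
      rw [h2]
      exact MeasurableSet.univ

/-- the probability of the good event -/
theorem goodB_prob (hES : S_ES) (hTH : S_THIRD) (hFL : S_FLUCT) (hIN : S_INV)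
    (hSU : S_SUP) (ka : ℝ) (hka : 0 < ka) (hka1 : ka ≤ 1)
    (δ θ η τ ζ e2 a v2 Q β s2 g ε e1 x2 K0 D : ℝ) (M : ℕ) (hδ : 0 < δ) (hη : 0 < η)
    (hη1 : η ≤ 1) (hτ : 0 < τ)
    (hadm : ∀ E, Bu (2 * ka) E → Adm (D0 E δ) (AA (d := 2) (L := L) E δ θ) a v2 Q)
    (μ : Measure ℝ) [IsProbabilityMeasure μ] (hβ : 0 < β) (hμ : ∀ᵐ s ∂μ, |s| ≤ β)
    (h0 : ∫ s, s ∂μ = 0) (h2 : ∫ s, s ^ 2 ∂μ = s2) (hs2 : 0 ≤ s2)
    (hβa : β * a ≤ η) (hβv : β ^ 2 * v2 ≤ 1) (hε0 : 0 ≤ ε) (hε1 : ε ≤ 1 / 2)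
    (he0 : 0 ≤ e1) (he1 : e1 ≤ 1 / 4)
    (hε : 4 * β ^ 3 * a * v2 / η ^ 3 + s2 * (2 * β * Q * Real.sqrt v2 / η ^ 4) ≤ ε)
    (hg : ∀ E' : ℝ, ∑ k : T 2 L, (JJ E' (η * δ) k)⁻¹ ≤ g * NN 2 L)
    (hlow : s2 * (∑ P : T 2 L, (1 - hi θ P)) ≤ e1 * (η ^ 2 * δ ^ 2) * NN 2 L)
    (hL : 1 / (L : ℝ) ≤ η * δ) (hx : Real.exp (-(η * δ * L / 4)) ≤ 1 / 4)
    (hsg : s2 * (2 * g) ≤ ka) (hsg1 : s2 * (2 * g) + η * δ ≤ 1)
    (hx2 : 4 / 3 * (ε + e1 + (2 * η + 8 * s2 ^ 2 * g ^ 2 / δ ^ 2)) * g +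
      (CH ka * (s2 * (2 * g)) ^ (1 / 4 : ℝ) +
        CH ka * Real.exp (-(η * δ * L / 4))) ≤ x2)
    (hK0 : ∀ E, Bu (2 * ka) E → |G0 2 L E (η * δ)| ≤ K0)
    (he2 : 40 * Real.sqrt D * (K0 + x2) + x2 ≤ e2)
    (hD : 0 < D) (hD1 : D ≤ 1 / 128)
    (hDD : 2 * β ^ 2 / η ^ 2 * (Q + a ^ 2 / η ^ 2) ≤ D ^ 2) :
    (PP (T 2 L) μ).real (GoodB (d := 2) (L := L) (Bu (2 * ka)) δ θ η τ ζ e2 M)ᶜ ≤
      2 * NN 2 L * Real.exp (-(τ ^ 2 * NN 2 L /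
        (2 * β ^ 2 * ∑ P : T 2 L, (1 - hi θ P)))) +
      (2 * M + 1) * (2 * Real.exp (1 / 2 - 1 / Real.sqrt (2 * D))) := by
  classical
  have hsub : (GoodB (d := 2) (L := L) (Bu (2 * ka)) δ θ η τ ζ e2 M)ᶜ ⊆
      {V | ∃ x : T 2 L, τ < |∑ y : T 2 L, V y * K (fun Q => 1 - hi θ Q) (x - y)|} ∪
      ⋃ j ∈ Finset.Icc (-(M : ℤ)) M,
        {V | Bu (2 * ka) (ζ * j) ∧
          e2 < |FF (ζ * j) δ θ η V - G0 2 L (ζ * j) (η * δ)|} := by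
    intro V hV
    simp only [GoodB, Set.mem_compl_iff, Set.mem_ofPred_eq, not_and_or, not_forall, not_le] at hV
    rcases hV with ⟨x, hx⟩ | ⟨j, hj, hB, hx⟩
    · exact Or.inl ⟨x, hx⟩
    · exact Or.inr (Set.mem_iUnion₂.2 ⟨j, hj, hB, hx⟩)
  refine (measureReal_mono hsub).trans ((measureReal_union_le _ _).trans (add_le_add ?_ ?_))
  · exact hSU 2 L μ β θ τ hβ hμ h0 hτ
  · refine (measureReal_biUnion_finset_le _ _).trans ?_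
    have h1 : ∀ j ∈ Finset.Icc (-(M : ℤ)) M,
        (PP (T 2 L) μ).real {V | Bu (2 * ka) (ζ * j) ∧
          e2 < |FF (ζ * j) δ θ η V - G0 2 L (ζ * j) (η * δ)|} ≤
          2 * Real.exp (1 / 2 - 1 / Real.sqrt (2 * D)) := by
      intro j _
      by_cases hB : Bu (2 * ka) (ζ * j)
      swap
      · have : {V : T 2 L → ℝ | Bu (2 * ka) (ζ * j) ∧
            e2 < |FF (ζ * j) δ θ η V - G0 2 L (ζ * j) (η * δ)|} = ∅ := by
          ext V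
          simp [hB]
        rw [this, measureReal_empty]
        positivity
      have e1 := mean_G02 hTH hFL hIN ka hka hka1 (ζ * j) δ θ η a v2 Q β s2 g ε e1 x2 hB hδ hη hη1
        (hadm _ hB) μ hβ hμ h0 h2 hs2 hβa hβv hε0 hε1 he0 he1 hε hg hlow hL hx hsg hsg1 hx2
      have e2' := conc2 hES (hadm (ζ * j) hB) μ β η D hβ hμ hη hβv hD hD1 hDD (w0 (ζ * j) δ)
      refine le_trans (measureReal_mono ?_) e2'
      intro V hV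
      simp only [Set.mem_ofPred_eq] at hV ⊢
      have hV := hV.2
      obtain ⟨m, hm⟩ : ∃ m, m = ∫ V, FF (ζ * j) δ θ η V ∂(PP (T 2 L) μ) := ⟨_, rfl⟩
      rw [← hm] at e1
      change 40 * Real.sqrt D * (∫ V, FF (ζ * j) δ θ η V ∂(PP (T 2 L) μ)) <
        |FF (ζ * j) δ θ η V - ∫ V, FF (ζ * j) δ θ η V ∂(PP (T 2 L) μ)|
      rw [← hm]
      have h3 := hK0 (ζ * j) hB
      have h4 : m ≤ K0 + x2 := by
        have h5 := (abs_le.1 e1).2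
        have h6 := (abs_le.1 h3).2
        linarith
      have h5 : 40 * Real.sqrt D * m ≤ 40 * Real.sqrt D * (K0 + x2) :=
        mul_le_mul_of_nonneg_left h4 (by positivity)
      have h6 : |FF (ζ * j) δ θ η V - G0 2 L (ζ * j) (η * δ)| ≤
          |FF (ζ * j) δ θ η V - m| + |m - G0 2 L (ζ * j) (η * δ)| := abs_sub_le _ _ _
      linarith
    refine (Finset.sum_le_sum h1).trans ?_
    rw [Finset.sum_const, nsmul_eq_mul, Int.card_Icc]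
    have e1 : ((M : ℤ) + 1 - -(M : ℤ)).toNat = 2 * M + 1 := by omega
    rw [e1]
    push_cast
    exact le_refl _

/-- **the energies of a set on the torus** -/
theorem torB (B B' : ℝ → Prop) (δ θ η κ g1 ρ τ K ζ e2 e3 : ℝ) (M : ℕ) (hδ : 0 < δ) (hη : 0 < η)
    (hη1 : η ≤ 1) (hκ : 0 < κ)
    (hκ2 : κ ≤ 1 / 2) (hg : ∀ E, ∑ k : T d L, (JJ E δ k)⁻¹ ≤ g1 * NN d L) (hK : 1 ≤ K)
    (hζ : 0 < ζ) (hM : (2 * d + 1) ≤ ζ * M)
    (hBB : ∀ E, B' E → |E| ≤ 2 * d + 1 ∧ ∀ j : ℤ, |E - ζ * j| ≤ ζ → B (ζ * j))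
    (V : T d L → ℝ) (hV : V ∈ GoodB (d := d) (L := L) B δ θ η τ ζ e2 M)
    (hX : ∀ E, (D0 (d := d) (L := L) E δ).IsHermitian)
    (hA : ∀ E y, (AA (d := d) (L := L) E δ θ y).IsHermitian)
    (hf : ∀ (E : ℝ) (w : T d L → ℝ), |∑ x, V x * w x ^ 2| ≤ κ * q (JJ E δ) w)
    (hρ0 : 0 ≤ ρ) (hτ : 0 ≤ τ)
    (hKe : ∀ E, B E → |G0 d L E (η * δ)| + e2 ≤ K)
    (h1 : K * (τ / (η * δ) + 2 * (κ + η)) ≤ 1 / 2)
    (h2 : K * (2 * (Real.sqrt η * Real.sqrt g1) + 3 * ((2 * (ρ + ζ * (η * δ)⁻¹)) /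
      Real.sqrt (η * δ))) ≤ 1 / 2)
    (h3 : (2 * (ρ + ζ * (η * δ)⁻¹)) / (η * δ) ≤ 1 / 2)
    (h4 : K * ((τ / (η * δ) + 2 * (κ + η)) * (2 * K + 4) +
      (2 * (Real.sqrt η * Real.sqrt g1) + 3 * ((2 * (ρ + ζ * (η * δ)⁻¹)) /
      Real.sqrt (η * δ)))) + e2 + ζ / (η * δ) ^ 2 ≤ e3)
    (E : ℝ) (hE' : B' E) (vr vi rr ri : T d L → ℝ) (h : Sol2 E (η * δ) V vr vi rr ri)
    (hρ : Real.sqrt (Bq rr ri) ≤ ρ)
    (hB : Real.sqrt (Bq vr vi) ≤ (η * δ)⁻¹) :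
    |vi 0 - G0 d L E (η * δ)| ≤ e3 := by
  have ht0 : 0 < η * δ := by positivity
  obtain ⟨hE, hEj⟩ := hBB E hE'
  -- a net point
  obtain ⟨j, hj⟩ : ∃ j : ℤ, j = ⌊E / ζ⌋ := ⟨_, rfl⟩
  have f3 := Int.floor_le (E / ζ)
  have f4 := Int.lt_floor_add_one (E / ζ)
  rw [← hj] at f3 f4
  have f5 : ζ * (j : ℝ) ≤ E := by
    calc ζ * (j : ℝ) ≤ ζ * (E / ζ) := by gcongr
      _ = E := by field_simp
  have f6 : E ≤ ζ * (j : ℝ) + ζ := by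
    calc E = ζ * (E / ζ) := by field_simp
      _ ≤ ζ * ((j : ℝ) + 1) := by gcongr
      _ = _ := by ring
  have hEj' : |E - ζ * j| ≤ ζ := by
    rw [abs_le]
    constructor <;> linarith
  have hBj := hEj j hEj'
  have hjI : j ∈ Finset.Icc (-(M : ℤ)) M := by
    have e1 := abs_le.1 hE
    rw [Finset.mem_Icc]
    constructor
    · rw [hj, Int.le_floor, le_div_iff₀ hζ]
      push_cast
      linarith [e1.1]
    · have e2 : ζ * (j : ℝ) ≤ ζ * M := by linarith [e1.2]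
      have e3 : (j : ℝ) ≤ M := le_of_mul_le_mul_left e2 hζ
      exact_mod_cast e3
  have hF := hV.2 j hjI hBj
  have hsh := h.shift (ζ * j)
  have hρ' : Real.sqrt (Bq (fun x => rr x + (E - ζ * j) * vr x)
      (fun x => ri x + (E - ζ * j) * vi x)) ≤ 2 * (ρ + ζ * (η * δ)⁻¹) := by
    refine (sqrt_Bq_add _ _ _ _ _).trans ?_
    have : |E - ζ * j| * Real.sqrt (Bq vr vi) ≤ ζ * (η * δ)⁻¹ :=
      mul_le_mul hEj' hB (Real.sqrt_nonneg _) hζ.le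
    linarith
  have hF0 : 0 ≤ FF (ζ * j) δ θ η V := by
    have e1 := (ward (hX (ζ * j)) (hA (ζ * j)) hη V (w0 (d := d) (L := L) (ζ * j) δ)).1
    change FF (ζ * j) δ θ η V = _ at e1
    rw [e1]
    exact mul_nonneg hη.le (nsq_nonneg _)
  have hFK : FF (ζ * j) δ θ η V ≤ K := by
    have e1 := hKe (ζ * j) hBj
    have e2 := (abs_le.1 hF).2
    have e3 := le_abs_self (G0 d L (ζ * j) (η * δ))
    linarith
  have hn := tor_near (ζ * j) δ θ η κ g1 (2 * (ρ + ζ * (η * δ)⁻¹)) τ K hδ hη hη1 hκ hκ2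
    (hg _) hK hsh (hf _) (by positivity) hρ' hτ hV.1 hB hF0 hFK h1 h2 h3
  have hl := G0_lip (d := d) (L := L) (ζ * j) E (η * δ) ht0
  have hl2 : |ζ * j - E| / (η * δ) ^ 2 ≤ ζ / (η * δ) ^ 2 := by
    rw [abs_sub_comm]
    exact div_le_div_of_nonneg_right hEj' (by positivity)
  have a1 := abs_sub_le (vi 0) (FF (ζ * j) δ θ η V) (G0 d L E (η * δ))
  have a2 := abs_sub_le (FF (ζ * j) δ θ η V) (G0 d L (ζ * j) (η * δ)) (G0 d L E (η * δ))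
  linarith

end Pool.Agent.TH311.LL2D
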