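import Pool.Agent.TH794.FG.Spec3
import Pool.Agent.TH311.LL2D.Tor2

/-! The free resolvent of the plane in the bulk, in infinite volume. -/

set_option autoImplicit false
set_option linter.unusedSectionVars false

open scoped BigOperators Topology
open MeasureTheory Filter

namespace Pool.Agent.TH311.LL2D

open Pool.Agent.W788.BK
open Pool.Agent.W788.LD.Spec (S)
open Pool.Agent.H4R2.LO (Zd)
open Pool.Agent.TH794.LL2 Pool.Agent.TH794.FG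

/-- **Hölder continuity in infinite volume** -/
theorem inf_holder2 (ka : ℝ) (hka : 0 < ka) (hka1 : ka ≤ 1) (E E' t t' : ℝ) (hE : Bu ka E)
    (hE' : Bu ka E') (ht : 0 < t) (ht' : 0 < t') (ht1 : t ≤ 1) (ht1' : t' ≤ 1)
    (ur ui ur' ui' : Zd 2 → ℝ) (h : LG 2 0 (fun _ => 0) 0 E t ur ui)
    (h' : LG 2 0 (fun _ => 0) 0 E' t' ur' ui') :
    ‖((ur 0 : ℂ) + Complex.I * (ui 0 : ℂ)) - ((ur' 0 : ℂ) + Complex.I * (ui' 0 : ℂ))‖ ≤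
      CH ka * ‖((E : ℂ) + ((t : ℝ) : ℂ) * Complex.I) -
        ((E' : ℂ) + ((t' : ℝ) : ℂ) * Complex.I)‖ ^ (1 / 4 : ℝ) := by
  obtain ⟨v, hv⟩ : ∃ v, v = (ur 0 : ℂ) + Complex.I * (ui 0 : ℂ) := ⟨_, rfl⟩
  obtain ⟨v', hv'⟩ : ∃ v, v = (ur' 0 : ℂ) + Complex.I * (ui' 0 : ℂ) := ⟨_, rfl⟩
  obtain ⟨z, hz⟩ : ∃ z, z = (E : ℂ) + ((t : ℝ) : ℂ) * Complex.I := ⟨_, rfl⟩
  obtain ⟨z', hz'⟩ : ∃ z, z = (E' : ℂ) + ((t' : ℝ) : ℂ) * Complex.I := ⟨_, rfl⟩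
  rw [← hv, ← hv', ← hz, ← hz']
  obtain ⟨tm, htm⟩ : ∃ tm, tm = min t t' := ⟨_, rfl⟩
  have htm0 : 0 < tm := by rw [htm]; exact lt_min ht ht'
  have htm1 : tm ≤ 1 := by rw [htm]; exact (min_le_left _ _).trans ht1
  have hzim : z.im = t := by rw [hz]; simp
  have hzim' : z'.im = t' := by rw [hz']; simp
  have hzre : z.re = E := by rw [hz]; simp
  have hzre' : z'.re = E' := by rw [hz']; simp
  have hzi : tm ≤ z.im := by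
    rw [hzim, htm]
    exact min_le_left _ _
  have hzi' : tm ≤ z'.im := by
    rw [hzim', htm]
    exact min_le_right _ _
  obtain ⟨X, hX⟩ : ∃ X, X = CH ka * ‖z - z'‖ ^ (1 / 4 : ℝ) := ⟨_, rfl⟩
  rw [← hX]
  have l2 : Tendsto (fun n : ℕ => Real.exp (-(tm * ((n : ℝ) + 4) ^ 2 / 4))) atTop (𝓝 0) := by
    apply Real.tendsto_exp_neg_atTop_nhds_zero.comp
    apply Tendsto.atTop_div_const (by norm_num)
    apply Tendsto.const_mul_atTop htm0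
    apply (tendsto_pow_atTop (by norm_num : (2 : ℕ) ≠ 0)).comp
    exact tendsto_atTop_add_const_right _ _ tendsto_natCast_atTop_atTop
  have l3 : Tendsto (fun n : ℕ => 1 / (((n : ℝ) + 4) ^ 2)) atTop (𝓝 0) := by
    simp only [one_div]
    apply tendsto_inv_atTop_zero.comp
    apply (tendsto_pow_atTop (by norm_num : (2 : ℕ) ≠ 0)).comp
    exact tendsto_atTop_add_const_right _ _ tendsto_natCast_atTop_atTop
  have ev1 : ∀ᶠ n : ℕ in atTop, Real.exp (-(tm * ((n : ℝ) + 4) ^ 2 / 4)) ≤ 1 / 4 :=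
    l2.eventually (ge_mem_nhds (by norm_num))
  have ev2' : ∀ᶠ n : ℕ in atTop, 1 / (((n : ℝ) + 4) ^ 2) ≤ tm :=
    l3.eventually (ge_mem_nhds htm0)
  have key : ∀ᶠ n : ℕ in atTop, ‖v - v'‖ ≤ 2 * ((2 : ℕ) : ℝ) * t⁻¹ * t⁻¹ * (1 / ((n : ℝ) + 1)) +
      (X + CH ka * Real.exp (-(tm * ((n : ℝ) + 4) ^ 2 / 4))) +
      2 * ((2 : ℕ) : ℝ) * t'⁻¹ * t'⁻¹ * (1 / ((n : ℝ) + 1)) := by
    filter_upwards [ev1, ev2'] with n hn1 hn2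
    obtain ⟨L, hL⟩ : ∃ L : ℕ, L = (n + 4) ^ 2 := ⟨_, rfl⟩
    have hLne : NeZero L := ⟨by rw [hL]; positivity⟩
    have hn0 : (0 : ℝ) ≤ n := Nat.cast_nonneg n
    have hLr : (L : ℝ) = ((n : ℝ) + 4) ^ 2 := by rw [hL]; push_cast; ring
    have hL1 : 4 * ((n : ℝ) + 1) + 4 < L := by
      rw [hLr]
      nlinarith
    rw [← hLr] at hn1 hn2 ⊢
    have a1 := freeC2 (L := L) ((n : ℝ) + 1) t ht (by positivity) hL1 E ur ui h
    have a2 := freeC2 (L := L) ((n : ℝ) + 1) t' ht' (by positivity) hL1 E' ur' ui' h'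
    have a3 := gL2_holder (L := L) ka tm hka hka1 htm1 hn2 hn1 z z' (by rw [hzre]; exact hE.1)
      (by rw [hzre]; exact hE.2) hzi (by rw [hzim]; exact ht1) (by rw [hzre']; exact hE'.1)
      (by rw [hzre']; exact hE'.2) hzi' (by rw [hzim']; exact ht1')
    rw [← hv, ← hz] at a1
    rw [← hv', ← hz'] at a2
    rw [← hX] at a3
    have e1 : v - v' = (v - gL 2 L z) + (gL 2 L z - gL 2 L z') + (gL 2 L z' - v') := by ring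
    rw [e1]
    refine (norm_add_le _ _).trans (add_le_add ((norm_add_le _ _).trans (add_le_add ?_ a3)) ?_)
    · refine a1.trans (le_of_eq ?_)
      ring
    · rw [norm_sub_rev]
      refine a2.trans (le_of_eq ?_)
      ring
  have l1 : Tendsto (fun n : ℕ => 1 / ((n : ℝ) + 1)) atTop (𝓝 0) :=
    tendsto_one_div_add_atTop_nhds_zero_nat
  have l3 := ((l1.const_mul (2 * ((2 : ℕ) : ℝ) * t⁻¹ * t⁻¹)).add
    ((l2.const_mul (CH ka)).const_add X)).add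
    (l1.const_mul (2 * ((2 : ℕ) : ℝ) * t'⁻¹ * t'⁻¹))
  simp only [mul_zero, add_zero, zero_add] at l3
  exact ge_of_tendsto l3 key

/-- the boundary value of the free resolvent, near `E0` -/
def BVB (ka E0 : ℝ) (γ : ℂ) : Prop :=
  ∀ E t : ℝ, 0 < t → t ≤ 1 → |E - E0| ≤ ka → ∃ ur ui : Zd 2 → ℝ,
    LG 2 0 (fun _ => 0) 0 E t ur ui ∧
    ‖((ur 0 : ℂ) + Complex.I * (ui 0 : ℂ)) - γ‖ ≤ CH ka *
      ‖((E : ℂ) + ((t : ℝ) : ℂ) * Complex.I) - (E0 : ℂ)‖ ^ (1 / 4 : ℝ)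

/-- the boundary value -/
theorem bv_of_tendsto2 (ka : ℝ) (hka : 0 < ka) (hka1 : ka ≤ 1) (m0 : Measure ℝ)
    (h : Res 2 (fun _ => 2 * ((2 : ℕ) : ℝ)) 0 m0)
    (e0 : ℝ) (he0 : Bu (2 * ka) (2 * ((2 : ℕ) : ℝ) - e0)) (γ : ℂ)
    (hγ : Tendsto (fun ε : ℝ => ∫ x : ℝ, ((x : ℂ) - ((e0 : ℂ) +
      (ε : ℂ) * Complex.I))⁻¹ ∂m0) (𝓝[>] 0) (𝓝 γ)) :
    BVB ka (2 * ((2 : ℕ) : ℝ) - e0) (-(starRingEnd ℂ) γ) := by
  intro E t ht ht1 hEE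
  obtain ⟨ur, ui, hLG, -⟩ := bv_spec m0 h E t ht
  refine ⟨ur, ui, hLG, ?_⟩
  have hE : Bu ka E := he0.near (r := ka) (by rw [abs_sub_comm]; exact hEE) (by linarith)
  have hE' : Bu ka (2 * ((2 : ℕ) : ℝ) - e0) := he0.near (r := 0) (by simp) (by linarith)
  obtain ⟨v, hv⟩ : ∃ v, v = (ur 0 : ℂ) + Complex.I * (ui 0 : ℂ) := ⟨_, rfl⟩
  obtain ⟨z, hz⟩ : ∃ z, z = (E : ℂ) + ((t : ℝ) : ℂ) * Complex.I := ⟨_, rfl⟩
  rw [← hv, ← hz]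
  have key : ∀ ε : ℝ, 0 < ε → ε ≤ 1 → ‖v - (-(starRingEnd ℂ) (∫ x : ℝ, ((x : ℂ) - ((e0 : ℂ) +
      (ε : ℂ) * Complex.I))⁻¹ ∂m0))‖ ≤ CH ka *
      ‖z - (((2 * ((2 : ℕ) : ℝ) - e0 : ℝ) : ℂ) + ((ε : ℝ) : ℂ) * Complex.I)‖ ^ (1 / 4 : ℝ) := by
    intro ε hε hε1
    obtain ⟨ur', ui', hLG', hval⟩ := bv_spec m0 h (2 * ((2 : ℕ) : ℝ) - e0) ε hε
    have h1 := inf_holder2 ka hka hka1 E (2 * ((2 : ℕ) : ℝ) - e0) t ε hE hE' ht hε ht1 hε1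
      ur ui ur' ui' hLG hLG'
    have h2 : (2 * ((2 : ℕ) : ℝ) - (2 * ((2 : ℕ) : ℝ) - e0) : ℝ) = e0 := by ring
    rw [h2] at hval
    rw [hval, ← hv, ← hz] at h1
    exact h1
  have l1 : Tendsto (fun ε : ℝ => ‖v - (-(starRingEnd ℂ) (∫ x : ℝ, ((x : ℂ) - ((e0 : ℂ) +
      (ε : ℂ) * Complex.I))⁻¹ ∂m0))‖) (𝓝[>] 0) (𝓝 ‖v - (-(starRingEnd ℂ) γ)‖) := by
    have h1 := (Complex.continuous_conj.tendsto γ).comp hγ
    exact (tendsto_const_nhds.sub h1.neg).norm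
  have l2 : Tendsto (fun ε : ℝ => CH ka *
      ‖z - (((2 * ((2 : ℕ) : ℝ) - e0 : ℝ) : ℂ) + ((ε : ℝ) : ℂ) * Complex.I)‖ ^ (1 / 4 : ℝ))
      (𝓝[>] 0)
      (𝓝 (CH ka * ‖z - ((2 * ((2 : ℕ) : ℝ) - e0 : ℝ) : ℂ)‖ ^ (1 / 4 : ℝ))) := by
    have hc : Continuous fun ε : ℝ => CH ka *
      ‖z - (((2 * ((2 : ℕ) : ℝ) - e0 : ℝ) : ℂ) + ((ε : ℝ) : ℂ) * Complex.I)‖ ^ (1 / 4 : ℝ) := by
      refine continuous_const.mul (Continuous.rpow_const (by fun_prop) fun _ => ?_)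
      right
      norm_num
    have h1 := (hc.tendsto 0).mono_left (nhdsWithin_le_nhds (s := Set.Ioi 0))
    simp only [Complex.ofReal_zero, zero_mul, add_zero] at h1
    exact h1
  refine le_of_tendsto_of_tendsto l1 l2 ?_
  have hmem : Set.Ioc (0 : ℝ) 1 ∈ 𝓝[>] (0 : ℝ) := Ioc_mem_nhdsGT one_pos
  filter_upwards [hmem] with ε hε
  exact key ε hε.1 hε.2

/-- the bound of the boundary value -/
theorem bv_bd2 (ka E0 : ℝ) (hka : 0 < ka) (γ : ℂ) (h : BVB ka E0 γ) : ‖γ‖ ≤ 2 + CH ka := by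
  obtain ⟨ur, ui, hLG, hb⟩ := h E0 1 one_pos le_rfl (by rw [sub_self, abs_zero]; exact hka.le)
  have h1 : ‖((E0 : ℂ) + (((1 : ℝ) : ℝ) : ℂ) * Complex.I) - (E0 : ℂ)‖ = 1 := by
    simp
  rw [h1, Real.one_rpow, mul_one] at hb
  have hn := hLG.norm one_pos
  norm_num at hn
  have e1 : ur 0 ^ 2 ≤ ∑' x, ur x ^ 2 := hLG.sr.le_tsum 0 fun x _ => sq_nonneg _
  have e2 : ui 0 ^ 2 ≤ ∑' x, ui x ^ 2 := hLG.si.le_tsum 0 fun x _ => sq_nonneg _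
  have e3 := sq_nonneg (ur 0)
  have e4 := sq_nonneg (ui 0)
  have a1 : |ur 0| ≤ 1 := abs_le_one_iff_mul_self_le_one.2 (by nlinarith)
  have a2 : |ui 0| ≤ 1 := abs_le_one_iff_mul_self_le_one.2 (by nlinarith)
  have h2 : ‖(ur 0 : ℂ) + Complex.I * (ui 0 : ℂ)‖ ≤ 2 := by
    refine (norm_add_le _ _).trans ?_
    rw [norm_mul, Complex.norm_I, one_mul, Complex.norm_real, Complex.norm_real,
      Real.norm_eq_abs, Real.norm_eq_abs]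
    linarith
  have h3 : γ = ((ur 0 : ℂ) + Complex.I * (ui 0 : ℂ)) -
      (((ur 0 : ℂ) + Complex.I * (ui 0 : ℂ)) - γ) := by ring
  rw [h3]
  refine (norm_sub_le _ _).trans ?_
  linarith

end Pool.Agent.TH311.LL2D
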