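import Pool.Agent.TH794.LL2.Mean2
import Pool.Agent.TH311.AN2.QB2

/-! The one-dimensional free resolvent of the torus. -/

set_option autoImplicit false
set_option linter.unusedSectionVars false

open scoped BigOperators

namespace Pool.Agent.TH311.LL2D

open Pool.Agent.W788.MFP.Four (T adj NN NN_pos card_T)
open Pool.Agent.W788.MFP.Dos (a a_abs mm count1 dy_conv)
open Pool.Agent.TH311.AN2 (co si co_sq a_co)

variable {L : ℕ} [NeZero L]

/-- the character -/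
noncomputable def u (j : ZMod L) : ℂ := ZMod.stdAddChar j

theorem sum_pow (n : ℕ) (hn : n < L) :
    ∑ j : ZMod L, u j ^ n = if n = 0 then (L : ℂ) else 0 := by
  have h1 : ∀ j : ZMod L, u j ^ n = ZMod.stdAddChar (j * (n : ZMod L)) := by
    intro j
    unfold u
    rw [← AddChar.map_nsmul_eq_pow, nsmul_eq_mul, mul_comm]
  simp only [h1]
  rw [AddChar.sum_mulShift _ (ZMod.isPrimitive_stdAddChar L)]
  have h2 : ((n : ZMod L) = 0) ↔ n = 0 := by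
    rw [ZMod.natCast_eq_zero_iff]
    constructor
    · intro h
      exact Nat.eq_zero_of_dvd_of_lt h hn
    · intro h
      rw [h]
      exact dvd_zero L
  by_cases h : n = 0
  · rw [if_pos (h2.2 h), if_pos h, ZMod.card]
  · rw [if_neg (fun hh => h (h2.1 hh)), if_neg h, Nat.cast_zero]

theorem u_pow_L (j : ZMod L) : u j ^ L = 1 := by
  unfold u
  rw [← AddChar.map_nsmul_eq_pow, nsmul_eq_mul]
  simp

theorem u_norm (j : ZMod L) : ‖u j‖ = 1 := AddChar.norm_apply _ _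

theorem u_neg (j : ZMod L) : u (-j) = (u j)⁻¹ := by
  unfold u
  rw [AddChar.map_neg_eq_inv]

theorem u_ne (j : ZMod L) : u j ≠ 0 := by
  intro h
  have := u_norm j
  rw [h, norm_zero] at this
  norm_num at this

theorem a_u (j : ZMod L) : ((a j : ℝ) : ℂ) = u j + (u j)⁻¹ := by
  have h1 : (u j)⁻¹ = (starRingEnd ℂ) (u j) := by
    rw [Complex.inv_def, Complex.normSq_eq_norm_sq, u_norm]
    simp
  rw [h1, Complex.add_conj]
  unfold a u
  push_cast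
  ring

theorem one_sub_ne (ζ : ℂ) (hζ : ‖ζ‖ < 1) (v : ℂ) (hv : ‖v‖ = 1) : 1 - ζ * v ≠ 0 := by
  intro h
  have h1 : ζ * v = 1 := by linear_combination (-1) * h
  have h2 : ‖ζ * v‖ = 1 := by rw [h1, norm_one]
  rw [norm_mul, hv, mul_one] at h2
  linarith

theorem pow_ne (ζ : ℂ) (hζ : ‖ζ‖ < 1) : 1 - ζ ^ L ≠ 0 := by
  intro h
  have h1 : ζ ^ L = 1 := by linear_combination (-1) * h
  have h2 : ‖ζ ^ L‖ = 1 := by rw [h1, norm_one]
  rw [norm_pow] at h2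
  have h3 := pow_lt_one₀ (norm_nonneg ζ) hζ (NeZero.ne L)
  linarith

/-- the geometric sum -/
theorem sum_geom (ζ : ℂ) (hζ : ‖ζ‖ < 1) :
    ∑ j : ZMod L, (1 - ζ * u j)⁻¹ = (L : ℂ) / (1 - ζ ^ L) := by
  have h1 : ∀ j : ZMod L, (1 - ζ * u j)⁻¹ =
      (1 - ζ ^ L)⁻¹ * ∑ n ∈ Finset.range L, ζ ^ n * u j ^ n := by
    intro j
    have e1 := one_sub_ne ζ hζ (u j) (u_norm j)
    have e2 := pow_ne (L := L) ζ hζ
    have e3 := geom_sum_mul_neg (ζ * u j) L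
    rw [mul_pow, u_pow_L, mul_one] at e3
    have e4 : ∑ n ∈ Finset.range L, ζ ^ n * u j ^ n = ∑ n ∈ Finset.range L, (ζ * u j) ^ n :=
      Finset.sum_congr rfl fun n _ => by rw [mul_pow]
    rw [e4]
    rw [eq_comm, inv_mul_eq_iff_eq_mul₀ e2, eq_comm, mul_inv_eq_iff_eq_mul₀ e1]
    exact e3.symm
  simp only [h1]
  rw [← Finset.mul_sum, Finset.sum_comm]
  have h2 : ∀ n ∈ Finset.range L, ∑ j : ZMod L, ζ ^ n * u j ^ n =
      if n = 0 then (L : ℂ) else 0 := by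
    intro n hn
    rw [← Finset.mul_sum, sum_pow n (Finset.mem_range.1 hn)]
    by_cases h : n = 0
    · rw [if_pos h, h, pow_zero, one_mul]
    · rw [if_neg h, mul_zero]
  rw [Finset.sum_congr rfl h2, Finset.sum_ite_eq', if_pos]
  · rw [div_eq_mul_inv, mul_comm]
  · rw [Finset.mem_range]
    exact Nat.pos_of_ne_zero (NeZero.ne L)

/-- the resolvent of the circle -/
theorem G1_formula (ζ : ℂ) (h0 : ζ ≠ 0) (hζ : ‖ζ‖ < 1) :
    ∑ j : ZMod L, (((a j : ℝ) : ℂ) - (ζ + ζ⁻¹))⁻¹ =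
      -(L : ℂ) * (ζ⁻¹ - ζ)⁻¹ * ((1 + ζ ^ L) / (1 - ζ ^ L)) := by
  have hs : ζ⁻¹ - ζ ≠ 0 := by
    intro h
    have h1 : ζ * ζ = 1 := by
      have : ζ * (ζ⁻¹ - ζ) = 0 := by rw [h, mul_zero]
      rw [mul_sub, mul_inv_cancel₀ h0] at this
      linear_combination (-1) * this
    have h2 : ‖ζ * ζ‖ = 1 := by rw [h1, norm_one]
    rw [norm_mul] at h2
    nlinarith [norm_nonneg ζ]
  have h1 : ∀ j : ZMod L, (((a j : ℝ) : ℂ) - (ζ + ζ⁻¹))⁻¹ =
      -(ζ⁻¹ - ζ)⁻¹ * ((1 - ζ * u j)⁻¹ + (1 - ζ * u (-j))⁻¹ - 1) := by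
    intro j
    have hu := u_ne j
    have e1 := one_sub_ne ζ hζ (u j) (u_norm j)
    have e2 := one_sub_ne ζ hζ (u (-j)) (u_norm (-j))
    have e3 : (((a j : ℝ) : ℂ) - (ζ + ζ⁻¹)) = -ζ⁻¹ * ((1 - ζ * u j) * (1 - ζ * u (-j))) := by
      rw [a_u, u_neg]
      field_simp
      ring
    have e4 : (1 - ζ * u j)⁻¹ + (1 - ζ * u (-j))⁻¹ - 1 =
        (1 - ζ * ζ) * ((1 - ζ * u j) * (1 - ζ * u (-j)))⁻¹ := by
      have e5 : (1 - ζ * u (-j)) + (1 - ζ * u j) - (1 - ζ * u j) * (1 - ζ * u (-j)) =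
          1 - ζ * ζ := by
        have : u j * u (-j) = 1 := by rw [u_neg, mul_inv_cancel₀ hu]
        linear_combination (-(ζ * ζ)) * this
      rw [← e5]
      field_simp
    have e6 : (1 : ℂ) - ζ * ζ ≠ 0 := by
      intro h
      apply hs
      have : ζ * (ζ⁻¹ - ζ) = 0 := by
        rw [mul_sub, mul_inv_cancel₀ h0]
        exact h
      exact (mul_eq_zero.1 this).resolve_left h0
    have e7 : ζ⁻¹ - ζ = ζ⁻¹ * (1 - ζ * ζ) := by
      field_simp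
    rw [e3, e4, e7]
    generalize (1 - ζ * u j) * (1 - ζ * u (-j)) = X
    generalize 1 - ζ * ζ = Y at e6
    rw [mul_inv, mul_inv, inv_neg, inv_inv]
    field_simp
  simp only [h1]
  rw [← Finset.mul_sum, Finset.sum_sub_distrib, Finset.sum_add_distrib, sum_geom ζ hζ]
  have h2 : ∑ j : ZMod L, (1 - ζ * u (-j))⁻¹ = (L : ℂ) / (1 - ζ ^ L) := by
    rw [← sum_geom ζ hζ]
    exact Equiv.sum_comp (Equiv.neg (ZMod L)) fun j : ZMod L => (1 - ζ * u j)⁻¹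
  rw [h2, Finset.sum_const, Finset.card_univ, ZMod.card, nsmul_eq_mul, mul_one]
  have e2 := pow_ne (L := L) ζ hζ
  field_simp
  ring

/-- the parametrisation of the half plane -/
theorem param (w : ℂ) (hw : 0 < w.im) : ∃ ζ : ℂ, ζ ≠ 0 ∧ ‖ζ‖ < 1 ∧ ζ + ζ⁻¹ = w := by
  obtain ⟨s, hs⟩ := IsAlgClosed.exists_pow_nat_eq (w ^ 2 - 4) (n := 2) (by norm_num)
  obtain ⟨x, hx⟩ : ∃ x, x = (w + s) / 2 := ⟨_, rfl⟩
  obtain ⟨y, hy⟩ : ∃ y, y = (w - s) / 2 := ⟨_, rfl⟩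
  have hxy : x * y = 1 := by
    rw [hx, hy]
    linear_combination (-1 / 4) * hs
  have hsum : x + y = w := by
    rw [hx, hy]
    ring
  have hx0 : x ≠ 0 := left_ne_zero_of_mul_eq_one hxy
  have hy0 : y ≠ 0 := right_ne_zero_of_mul_eq_one hxy
  have hyx : x⁻¹ = y := inv_eq_of_mul_eq_one_right hxy
  have hxy' : y⁻¹ = x := inv_eq_of_mul_eq_one_left hxy
  have hn : ‖x‖ * ‖y‖ = 1 := by rw [← norm_mul, hxy, norm_one]
  rcases lt_trichotomy ‖x‖ 1 with h | h | h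
  · exact ⟨x, hx0, h, by rw [hyx, hsum]⟩
  · exfalso
    have h1 : x⁻¹ = (starRingEnd ℂ) x := by
      rw [Complex.inv_def, Complex.normSq_eq_norm_sq, h]
      simp
    rw [hyx] at h1
    have h2 : w.im = 0 := by
      rw [← hsum, h1]
      simp
    linarith
  · refine ⟨y, hy0, ?_, by rw [hxy', add_comm, hsum]⟩
    by_contra hcon
    push Not at hcon
    nlinarith [norm_nonneg y]

/-- the root -/
theorem root (w : ℂ) (t : ℝ) (ht : 0 < t) (ht1 : t ≤ 1) (hw : t ≤ w.im) :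
    ∃ s : ℂ, s ^ 2 = w ^ 2 - 4 ∧ 0 < s.im ∧ (∃ c : ℝ, 0 ≤ c ∧ c ≤ 1 ∧ s.re = c * w.re) ∧
      (Real.exp (-(t * L / 4)) ≤ 1 / 2 →
      ‖∑ j : ZMod L, (((a j : ℝ) : ℂ) - w)⁻¹ + (L : ℂ) * s⁻¹‖ ≤
        L * (4 * Real.exp (-(t * L / 4))) * ‖s⁻¹‖) := by
  obtain ⟨ζ, h0, h1, h2⟩ := param w (by linarith)
  obtain ⟨n, hn⟩ : ∃ n, n = Complex.normSq ζ := ⟨_, rfl⟩
  obtain ⟨r, hr⟩ : ∃ r, r = ‖ζ‖ := ⟨_, rfl⟩
  have hr0 : 0 < r := by rw [hr]; exact norm_pos_iff.2 h0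
  have hnr : n = r ^ 2 := by rw [hn, hr, Complex.normSq_eq_norm_sq]
  have hn0 : 0 < n := by rw [hnr]; positivity
  have hr1 : r < 1 := by rw [hr]; exact h1
  have hn1 : n < 1 := by rw [hnr]; nlinarith
  have hinr : (ζ⁻¹).re = ζ.re / n := by rw [Complex.inv_re, hn]
  have hini : (ζ⁻¹).im = -ζ.im / n := by rw [Complex.inv_im, hn]
  have hwre : w.re = ζ.re * (n⁻¹ + 1) := by
    rw [← h2, Complex.add_re, hinr]
    field_simp
    ring
  have hwim : w.im = -ζ.im * (n⁻¹ - 1) := by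
    rw [← h2, Complex.add_im, hini]
    field_simp
    ring
  have hsre : (ζ⁻¹ - ζ).re = ζ.re * (n⁻¹ - 1) := by
    rw [Complex.sub_re, hinr]
    field_simp
  have hsim : (ζ⁻¹ - ζ).im = -ζ.im * (n⁻¹ + 1) := by
    rw [Complex.sub_im, hini]
    field_simp
    ring
  have hni : 1 < n⁻¹ := (one_lt_inv₀ hn0).2 hn1
  have hζi : ζ.im < 0 := by
    by_contra hcon
    push Not at hcon
    have : 0 < -ζ.im * (n⁻¹ - 1) := by rw [← hwim]; linarith
    nlinarith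
  refine ⟨ζ⁻¹ - ζ, ?_, ?_, ⟨(n⁻¹ - 1) / (n⁻¹ + 1), ?_, ?_, ?_⟩, ?_⟩
  · rw [← h2]
    field_simp
    ring
  · rw [hsim]
    exact mul_pos (by linarith) (by linarith)
  · exact div_nonneg (by linarith) (by linarith)
  · rw [div_le_one (by linarith)]
    linarith
  · rw [hsre, hwre]
    have : n⁻¹ + 1 ≠ 0 := by linarith
    field_simp
  · intro he
    -- the size of `ζ`
    have hrt : r ≤ 1 - t / 4 := by
      have e1 : -ζ.im ≤ r := by
        rw [hr]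
        exact (neg_le_abs _).trans (Complex.abs_im_le_norm ζ)
      have e2 : t ≤ r * (n⁻¹ - 1) := by
        refine hw.trans ?_
        rw [hwim]
        exact mul_le_mul_of_nonneg_right e1 (by linarith)
      have e3 : r * (n⁻¹ - 1) = (1 - r ^ 2) / r := by
        rw [hnr]
        field_simp
      rw [e3, le_div_iff₀ hr0] at e2
      by_contra hcon
      push Not at hcon
      nlinarith
    have hrL : ‖ζ ^ L‖ ≤ Real.exp (-(t * L / 4)) := by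
      rw [norm_pow, ← hr]
      have e1 : r ≤ Real.exp (-(t / 4)) := by
        have := Real.add_one_le_exp (-(t / 4))
        linarith
      calc r ^ L ≤ Real.exp (-(t / 4)) ^ L := by gcongr
        _ = _ := by
          rw [← Real.exp_nat_mul]
          congr 1
          ring
    obtain ⟨x, hx⟩ : ∃ x, x = Real.exp (-(t * L / 4)) := ⟨_, rfl⟩
    rw [← hx] at he hrL ⊢
    have hG := G1_formula (L := L) ζ h0 h1
    rw [h2] at hG
    rw [hG]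
    have e2 := pow_ne (L := L) ζ h1
    have e3 : -(L : ℂ) * (ζ⁻¹ - ζ)⁻¹ * ((1 + ζ ^ L) / (1 - ζ ^ L)) + (L : ℂ) * (ζ⁻¹ - ζ)⁻¹ =
        -((L : ℂ) * (2 * ζ ^ L / (1 - ζ ^ L)) * (ζ⁻¹ - ζ)⁻¹) := by
      field_simp
      ring
    rw [e3, norm_neg, norm_mul, norm_mul, Complex.norm_natCast]
    apply mul_le_mul_of_nonneg_right _ (norm_nonneg _)
    apply mul_le_mul_of_nonneg_left _ (by positivity)
    rw [norm_div, norm_mul]
    have e4 : 1 / 2 ≤ ‖1 - ζ ^ L‖ := by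
      have := norm_sub_norm_le (1 : ℂ) (ζ ^ L)
      rw [norm_one] at this
      linarith
    have e5 : ‖(2 : ℂ)‖ = 2 := by norm_num
    rw [e5, div_le_iff₀ (by linarith)]
    have hx0 : 0 ≤ x := (norm_nonneg _).trans hrL
    nlinarith [norm_nonneg (ζ ^ L)]

/-- two roots -/
theorem two_roots (w w' s s' : ℂ) (hs : s ^ 2 = w ^ 2 - 4) (hs' : s' ^ 2 = w' ^ 2 - 4)
    (him : 0 < s.im) (him' : 0 < s'.im) (c c' : ℝ) (hc : 0 ≤ c) (hc1 : c ≤ 1) (hc' : 0 ≤ c')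
    (hc1' : c' ≤ 1) (hre : s.re = c * w.re) (hre' : s'.re = c' * w'.re)
    (hww : ‖w - w'‖ ≤ 1 / 2) :
    ‖s⁻¹ - s'⁻¹‖ ≤ Real.sqrt (Real.sqrt ‖w ^ 2 - w' ^ 2‖) *
      ((Real.sqrt ‖s‖)⁻¹ ^ 3 + (Real.sqrt ‖s'‖)⁻¹ ^ 3) := by
  have hs0 : s ≠ 0 := by
    intro h
    rw [h] at him
    simp at him
  have hs0' : s' ≠ 0 := by
    intro h
    rw [h] at him'
    simp at him'
  -- the same quadrant
  have hpos : 0 ≤ s.re * s'.re + s.im * s'.im := by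
    rcases le_or_gt 0 (w.re * w'.re) with h | h
    · have e1 : s.re * s'.re = c * c' * (w.re * w'.re) := by rw [hre, hre']; ring
      rw [e1]
      positivity
    · have e1 : |w.re - w'.re| ≤ 1 / 2 := by
        rw [← Complex.sub_re]
        exact (Complex.abs_re_le_norm _).trans hww
      have e2 := abs_le.1 e1
      have e34 : (w.re - w'.re) ^ 2 ≤ (1 / 2) ^ 2 := by
        rw [← sq_abs (w.re - w'.re)]
        exact pow_le_pow_left₀ (abs_nonneg _) e1 2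
      have e3 : w.re ^ 2 ≤ 1 / 4 := by nlinarith [sq_nonneg w'.re]
      have e4 : w'.re ^ 2 ≤ 1 / 4 := by nlinarith [sq_nonneg w.re]
      have f1 : ∀ (w s : ℂ) (c : ℝ), s ^ 2 = w ^ 2 - 4 → 0 < s.im → 0 ≤ c → c ≤ 1 →
          s.re = c * w.re → w.re ^ 2 ≤ 1 / 4 → 1 ≤ s.im ∧ s.re ^ 2 ≤ 1 / 4 := by
        intro w s c h1 h2 h3 h4 h5 h6
        have g1 := congrArg Complex.re h1
        simp only [sq, Complex.mul_re, Complex.sub_re] at g1
        have g2 : (4 : ℂ).re = 4 := by norm_num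
        rw [g2] at g1
        have g3 : s.re ^ 2 ≤ 1 / 4 := by
          rw [h5, mul_pow]
          have : c ^ 2 ≤ 1 := pow_le_one₀ h3 h4
          nlinarith [sq_nonneg w.re]
        refine ⟨?_, g3⟩
        nlinarith [sq_nonneg s.re, sq_nonneg w.im]
      obtain ⟨a1, a2⟩ := f1 w s c hs him hc hc1 hre e3
      obtain ⟨b1, b2⟩ := f1 w' s' c' hs' him' hc' hc1' hre' e4
      nlinarith [sq_nonneg (s.re + s'.re)]
  obtain ⟨A, hA⟩ : ∃ A, A = ‖s - s'‖ := ⟨_, rfl⟩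
  obtain ⟨P, hP⟩ : ∃ P, P = ‖s + s'‖ := ⟨_, rfl⟩
  obtain ⟨D, hD⟩ : ∃ D, D = ‖w ^ 2 - w' ^ 2‖ := ⟨_, rfl⟩
  have hA0 : 0 ≤ A := by rw [hA]; exact norm_nonneg _
  have hAP : A * P = D := by
    rw [hA, hP, hD, ← norm_mul]
    congr 1
    linear_combination hs - hs'
  have hAP2 : A ≤ P := by
    rw [hA, hP]
    apply le_of_sq_le_sq _ (norm_nonneg _)
    rw [← Complex.normSq_eq_norm_sq, ← Complex.normSq_eq_norm_sq, Complex.normSq_apply,
      Complex.normSq_apply]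
    simp only [Complex.sub_re, Complex.sub_im, Complex.add_re, Complex.add_im]
    nlinarith
  obtain ⟨x, hx⟩ : ∃ x, x = Real.sqrt ‖s‖ := ⟨_, rfl⟩
  obtain ⟨y, hy⟩ : ∃ y, y = Real.sqrt ‖s'‖ := ⟨_, rfl⟩
  have hx0 : 0 < x := by rw [hx]; exact Real.sqrt_pos.2 (norm_pos_iff.2 hs0)
  have hy0 : 0 < y := by rw [hy]; exact Real.sqrt_pos.2 (norm_pos_iff.2 hs0')
  have hx2 : ‖s‖ = x ^ 2 := by rw [hx, Real.sq_sqrt (norm_nonneg _)]
  have hy2 : ‖s'‖ = y ^ 2 := by rw [hy, Real.sq_sqrt (norm_nonneg _)]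
  obtain ⟨z, hz⟩ : ∃ z, z = Real.sqrt A := ⟨_, rfl⟩
  have hz0 : 0 ≤ z := by rw [hz]; exact Real.sqrt_nonneg _
  have hz2 : A = z ^ 2 := by rw [hz, Real.sq_sqrt hA0]
  have hz1 : z ≤ Real.sqrt (Real.sqrt D) := by
    rw [hz]
    apply Real.sqrt_le_sqrt
    apply Real.le_sqrt_of_sq_le
    rw [← hAP, sq]
    exact mul_le_mul_of_nonneg_left hAP2 hA0
  have hz3 : z ≤ x + y := by
    have e1 : A ≤ ‖s‖ + ‖s'‖ := by
      rw [hA]
      exact norm_sub_le _ _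
    rw [hz2, hx2, hy2] at e1
    nlinarith
  rw [← hD, ← hx, ← hy]
  have e1 : s⁻¹ - s'⁻¹ = (s' - s) * (s⁻¹ * s'⁻¹) := by
    field_simp
  rw [e1, norm_mul, norm_mul, norm_inv, norm_inv, norm_sub_rev, ← hA, hz2, hx2, hy2]
  obtain ⟨p, hp⟩ : ∃ p, p = x⁻¹ := ⟨_, rfl⟩
  obtain ⟨q, hq⟩ : ∃ q, q = y⁻¹ := ⟨_, rfl⟩
  have hp0 : 0 < p := by rw [hp]; positivity
  have hq0 : 0 < q := by rw [hq]; positivity
  rw [← inv_pow, ← inv_pow, ← hp, ← hq]
  have e2 : z ^ 2 * (p ^ 2 * q ^ 2) ≤ Real.sqrt (Real.sqrt D) * (x + y) * (p ^ 2 * q ^ 2) := by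
    apply mul_le_mul_of_nonneg_right _ (by positivity)
    rw [sq]
    exact mul_le_mul hz1 hz3 hz0 (Real.sqrt_nonneg _)
  refine e2.trans ?_
  rw [mul_assoc]
  apply mul_le_mul_of_nonneg_left _ (Real.sqrt_nonneg _)
  have e3 : (x + y) * (p ^ 2 * q ^ 2) = p * q ^ 2 + p ^ 2 * q := by
    rw [hp, hq]
    field_simp
  rw [e3]
  nlinarith [mul_nonneg (add_pos hp0 hq0).le (sq_nonneg (p - q))]

end Pool.Agent.TH311.LL2D
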